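import Mathlib

/-!
Helper file for `MP_525382_al`: elementary facts about the operation `u v + v u` on `3 × 3` matrices in characteristic two.
-/

set_option autoImplicit false

namespace Pool.Agent.H837dc

open Matrix Module

variable {K : Type*} [Field K]

/-- `u v + v u`; in characteristic two this is the commutator. -/
def br (u v : Matrix (Fin 3) (Fin 3) K) : Matrix (Fin 3) (Fin 3) K := u * v + v * u

section basic

variable (u v w y z : Matrix (Fin 3) (Fin 3) K) (s : K)

theorem br_comm : br u v = br v u := by unfold br; rw [add_comm]

theorem br_add_left : br (u + v) w = br u w + br v w := by unfold br; noncomm_ring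

theorem br_add_right : br u (v + w) = br u v + br u w := by unfold br; noncomm_ring

theorem br_smul_left : br (s • u) v = s • br u v := by
  unfold br; rw [smul_mul_assoc, mul_smul_comm, smul_add]

theorem br_smul_right : br u (s • v) = s • br u v := by
  unfold br; rw [smul_mul_assoc, mul_smul_comm, smul_add]

theorem br_zero_left : br 0 v = 0 := by unfold br; simp

theorem br_zero_right : br u 0 = 0 := by unfold br; simp

/-- the trace form -/
def tf (u v : Matrix (Fin 3) (Fin 3) K) : K := trace (u * v)

theorem tf_comm : tf u v = tf v u := by unfold tf; exact trace_mul_comm _ _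

theorem tf_add_left : tf (u + v) w = tf u w + tf v w := by unfold tf; rw [add_mul, trace_add]

theorem tf_add_right : tf u (v + w) = tf u v + tf u w := by unfold tf; rw [mul_add, trace_add]

theorem tf_smul_left : tf (s • u) v = s * tf u v := by
  unfold tf; rw [smul_mul_assoc, trace_smul, smul_eq_mul]

theorem tf_smul_right : tf u (s • v) = s * tf u v := by
  unfold tf; rw [mul_smul_comm, trace_smul, smul_eq_mul]

theorem tf_zero_left : tf 0 v = 0 := by unfold tf; simp

theorem tf_zero_right : tf u 0 = 0 := by unfold tf; simp

theorem tf_one_left : tf 1 v = trace v := by unfold tf; simp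

theorem tf_one_right : tf v 1 = trace v := by unfold tf; simp

/-- invariance of the trace form -/
theorem tf_inv : tf (br u v) w = tf u (br v w) := by
  unfold tf br
  rw [add_mul, mul_add, trace_add, trace_add, mul_assoc, ← mul_assoc u w v, trace_mul_comm (u * w) v,
    ← mul_assoc v u w]

end basic

section char2

variable [CharP K 2]

theorem add_self (u : Matrix (Fin 3) (Fin 3) K) : u + u = 0 := CharTwo.add_self_eq_zero u

theorem kadd_self (s : K) : s + s = 0 := CharTwo.add_self_eq_zero s

theorem two_zero : (2 : K) = 0 := CharTwo.two_eq_zero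

variable (u v w y z : Matrix (Fin 3) (Fin 3) K) (s : K)

theorem br_self : br u u = 0 := by unfold br; exact add_self _

theorem br_eq_lie : ⁅u, v⁆ = br u v := by
  unfold br
  rw [Ring.lie_def, sub_eq_add_neg, CharTwo.neg_eq]

theorem trace_br : trace (br u v) = 0 := by
  unfold br; rw [trace_add, trace_mul_comm v u]; exact kadd_self _

theorem trace_sq : tf (br u v) (br u v) = 0 := by
  rw [tf_inv]
  unfold tf br
  have h : trace (u * (v * (u * v + v * u) + (u * v + v * u) * v))
      = (trace (u * v * u * v) + trace (u * v * u * v)) + (trace (u * u * (v * v)) + trace (u * u * (v * v))) := by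
    have e1 : u * (v * (u * v + v * u) + (u * v + v * u) * v)
        = u * v * u * v + (u * (v * v)) * u + u * u * (v * v) + u * v * u * v := by noncomm_ring
    rw [e1, trace_add, trace_add, trace_add, trace_mul_comm (u * (v * v)) u, ← mul_assoc u u (v * v)]
    ring
  rw [h, kadd_self, kadd_self, add_zero]

theorem br_br_self : br u (br u v) = br (u * u) v := by
  unfold br
  have : u * (u * v + v * u) + (u * v + v * u) * u = (u * u * v + v * (u * u)) + (u * v * u + u * v * u) := by
    noncomm_ring
  rw [this, add_self, add_zero]

theorem br_sq_self : br (u * u) u = 0 := by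
  unfold br; rw [mul_assoc]; exact add_self _

theorem jacobi : br u (br v w) = br v (br u w) + br w (br u v) := by
  unfold br
  have e : v * (u * w + w * u) + (u * w + w * u) * v + (w * (u * v + v * u) + (u * v + v * u) * w)
      = (u * (v * w + w * v) + (v * w + w * v) * u) + (v * u * w + v * u * w) + (w * u * v + w * u * v) := by
    noncomm_ring
  rw [e, add_self, add_self, add_zero, add_zero]

theorem tf_br_self : tf u (br u v) = 0 := by
  rw [← tf_inv, br_self, tf_zero_left]

theorem tf_br_self' : tf u (br v u) = 0 := by
  rw [br_comm]; exact tf_br_self u v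

theorem tf_br_self'' : tf (br u v) u = 0 := by
  rw [tf_comm]; exact tf_br_self u v

theorem tf_br_self''' : tf (br v u) u = 0 := by
  rw [tf_comm]; exact tf_br_self' u v

end char2

/-- the trace form as a bilinear form -/
def tB (K : Type*) [Field K] : LinearMap.BilinForm K (Matrix (Fin 3) (Fin 3) K) :=
  LinearMap.mk₂ K (fun u v => tf u v) (fun u v w => tf_add_left u v w) (fun s u v => tf_smul_left u v s)
    (fun u v w => tf_add_right u v w) (fun s u v => tf_smul_right u v s)

theorem tB_apply (u v : Matrix (Fin 3) (Fin 3) K) : tB K u v = tf u v := rfl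

theorem tf_nondeg (u : Matrix (Fin 3) (Fin 3) K) (h : ∀ v, tf u v = 0) : u = 0 := by
  rw [Matrix.ext_iff_trace_mul_right]
  intro x
  rw [zero_mul, trace_zero]
  exact h x

theorem tB_nondeg : (tB K).Nondegenerate := by
  constructor
  · intro u h
    exact tf_nondeg u h
  · intro u h
    apply tf_nondeg u
    intro v
    rw [tf_comm]
    exact h v

/-- dimension count: two orthogonal independent families of total size nine span each other's complements. -/
theorem orth_span {m k : ℕ} (g : Fin m → Matrix (Fin 3) (Fin 3) K) (h : Fin k → Matrix (Fin 3) (Fin 3) K)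
    (hg : LinearIndependent K g) (hh : LinearIndependent K h) (hmk : m + k = 9)
    (ho : ∀ i j, tf (g i) (h j) = 0) (y : Matrix (Fin 3) (Fin 3) K) (hy : ∀ i, tf (g i) y = 0) :
    y ∈ Submodule.span K (Set.range h) := by
  set W := Submodule.span K (Set.range g) with hW
  set U := Submodule.span K (Set.range h) with hU
  have f1 : finrank K W = m := by
    rw [hW, finrank_span_eq_card hg, Fintype.card_fin]
  have f2 : finrank K U = k := by
    rw [hU, finrank_span_eq_card hh, Fintype.card_fin]
  have f3 : finrank K (Matrix (Fin 3) (Fin 3) K) = 9 := by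
    rw [Module.finrank_matrix]; simp
  have f4 : finrank K ((tB K).orthogonal W) = k := by
    rw [LinearMap.BilinForm.finrank_orthogonal tB_nondeg, f1, f3]; omega
  have memo : ∀ z, (∀ i, tf (g i) z = 0) → z ∈ (tB K).orthogonal W := by
    intro z hz
    rw [LinearMap.BilinForm.mem_orthogonal_iff]
    intro n hn
    show tB K n z = 0
    have : W ≤ LinearMap.ker ((tB K).flip z) := by
      rw [hW, Submodule.span_le]
      rintro _ ⟨i, rfl⟩
      exact hz i
    exact this hn
  have le : U ≤ (tB K).orthogonal W := by
    rw [hU, Submodule.span_le]
    rintro _ ⟨j, rfl⟩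
    exact memo _ fun i => ho i j
  have eq : U = (tB K).orthogonal W := Submodule.eq_of_le_of_finrank_eq le (by rw [f2, f4])
  rw [eq]
  exact memo y hy

end Pool.Agent.H837dc
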