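import Pool.Agent.H837dc.Rel

/-!
Helper file for `MP_525382_al`: the two cubic relations.
-/

set_option autoImplicit false
set_option linter.unusedSectionVars false
set_option linter.unusedVariables false

namespace Pool.Agent.H837dc

open Matrix Module

variable {K : Type*} [Field K] [CharP K 2]

namespace Sys

variable {ω γ : K} {x a b c : Matrix (Fin 3) (Fin 3) K}

/-- the shape of `[x, D]` -/
theorem R (S : Sys ω γ x a b c) : ∃ κ : K,
    (tf a (br b c)) • br x (br b c) + tf x (br b (br b c)) • br c a + tf x (br c (br b c)) • br a b = κ • x := by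
  have hE := S.tE
  have hF := S.tF
  have DE := S.DE
  have EF := S.EF
  have FD := S.FD
  have ED : tf (br c a) (br b c) = 0 := by rw [tf_comm]; exact DE
  have FE : tf (br a b) (br c a) = 0 := by rw [tf_comm]; exact EF
  have DF : tf (br b c) (br a b) = 0 := by rw [tf_comm]; exact FD
  have DD : tf (br b c) (br b c) = 0 := trace_sq _ _
  have EE : tf (br c a) (br c a) = 0 := trace_sq _ _
  have FF : tf (br a b) (br a b) = 0 := trace_sq _ _
  have xDE := S.xDE
  have xFD := S.xFD
  have aE : tf a (br c a) = 0 := tf_br_self' _ _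
  have aF : tf a (br a b) = 0 := tf_br_self _ _
  have bF : tf b (br a b) = 0 := tf_br_self' _ _
  have cE : tf c (br c a) = 0 := tf_br_self _ _
  have axD : tf a (br x (br b c)) = 0 := by
    rw [br_comm x, ← tf_inv, S.h0]; exact S.txx
  have bxD : tf b (br x (br b c)) = tf x (br b (br b c)) := by
    rw [br_comm x, ← tf_inv, tf_comm]
  have cxD : tf c (br x (br b c)) = tf x (br c (br b c)) := by
    rw [br_comm x, ← tf_inv, tf_comm]
  have DxD : tf (br b c) (br x (br b c)) = 0 := tf_br_self' _ _
  have ExD : tf (br c a) (br x (br b c)) = 0 := by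
    rw [br_comm x, ← tf_inv, tf_comm, br_comm (br c a)]; exact xDE
  have FxD : tf (br a b) (br x (br b c)) = 0 := by
    rw [br_comm x, ← tf_inv, tf_comm]; exact xFD
  have xxD : tf x (br x (br b c)) = 0 := tf_br_self _ _
  have h2 := two_zero (K := K)
  apply S.ortho
  · simp only [trace_add, trace_smul, trace_br, smul_eq_mul]; ring
  · simp only [tf_add_right, tf_smul_right, axD, aE, aF]; ring
  · simp only [tf_add_right, tf_smul_right, bxD, hE, bF]
    linear_combination (tf a (br b c) * tf x (br b (br b c))) * h2
  · simp only [tf_add_right, tf_smul_right, cxD, hF, cE]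
    linear_combination (tf a (br b c) * tf x (br c (br b c))) * h2
  · simp only [tf_add_right, tf_smul_right, DxD, DE, DF]; ring
  · simp only [tf_add_right, tf_smul_right, ExD, EE, EF]; ring
  · simp only [tf_add_right, tf_smul_right, FxD, FE, FF]; ring
  · simp only [tf_add_right, tf_smul_right, xxD, S.xE, S.xF]; ring

/-- `tr ([x,E] [x,D]) = 0` -/
theorem xDxE (S : Sys ω γ x a b c) : tf (br x (br b c)) (br x (br c a)) = 0 := by
  obtain ⟨κ, hκ⟩ := S.R
  have h := congrArg (fun m => tf m (br x (br c a))) hκ
  have k1 : tf x (br x (br c a)) = 0 := tf_br_self _ _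
  have k2 : tf (br c a) (br x (br c a)) = 0 := tf_br_self' _ _
  have k3 : tf (br a b) (br x (br c a)) = 0 := by
    rw [br_comm x, ← tf_inv, tf_comm, br_comm (br a b)]; exact S.xEF
  simp only [tf_add_left, tf_smul_left, k1, k2, k3, mul_zero, add_zero] at h
  exact (mul_eq_zero.mp h).resolve_left S.t_ne

theorem xExF (S : Sys ω γ x a b c) : tf (br x (br c a)) (br x (br a b)) = 0 := by
  have := S.rot.xDxE
  rw [br_smul_left, br_smul_left, tf_smul_left, tf_smul_right] at this
  exact ((mul_eq_zero.mp this).resolve_left S.ω_ne |> mul_eq_zero.mp).resolve_left S.ω_ne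

theorem xFxD (S : Sys ω γ x a b c) : tf (br x (br a b)) (br x (br b c)) = 0 := by
  have := S.rot.xExF
  rw [br_smul_left, br_smul_left, tf_smul_left, tf_smul_right] at this
  exact ((mul_eq_zero.mp this).resolve_left S.ω_ne |> mul_eq_zero.mp).resolve_left S.ω_ne

/-- the cube of `ad x` -/
theorem cube (S : Sys ω γ x a b c) (y δ : Matrix (Fin 3) (Fin 3) K) (h1 : trace y = 0) (h2 : tf x y = 0)
    (h3 : tf x δ = 0) : tf (br x (br x (br x y))) δ = γ * tf y δ := by
  have hx := S.x3
  have hx' : x * (x * x) = γ • (1 : Matrix (Fin 3) (Fin 3) K) := by rw [← mul_assoc]; exact hx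
  have e : br x (br x (br x y)) = x * x * y * x + x * y * (x * x) := by
    have e1 : br x (br x (br x y)) = (x * x * x * y + y * (x * x * x)) + (x * x * y * x + x * y * (x * x))
        + ((x * x * y * x + x * x * y * x) + (x * y * (x * x) + x * y * (x * x))) := by
      unfold br; noncomm_ring
    rw [e1, add_self, add_self, hx, smul_mul_assoc, one_mul, mul_smul_comm, mul_one, add_self]
    simp
  obtain ⟨q, hq⟩ := S.cx1 (γ • y + (x * x * y * x + x * y * (x * x)))
    (by
      have e2 : br x (γ • y + (x * x * y * x + x * y * (x * x)))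
          = (γ • (x * y) + γ • (y * x)) + ((x * x * x) * y * x + x * y * (x * x * x))
            + (x * x * y * (x * x) + x * x * y * (x * x)) := by
        unfold br
        simp only [mul_add, add_mul, mul_smul_comm, smul_mul_assoc, mul_assoc]
        abel
      rw [e2, hx, add_self, add_zero, smul_mul_assoc, one_mul, smul_mul_assoc, mul_smul_comm, mul_one]
      have : γ • (x * y) + γ • (y * x) + (γ • (y * x) + γ • (x * y))
          = (γ • (x * y) + γ • (x * y)) + (γ • (y * x) + γ • (y * x)) := by abel
      rw [this, add_self, add_self, add_zero])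
    (by
      rw [trace_add, trace_add, trace_smul, h1, smul_zero, zero_add]
      have e3 : trace (x * x * y * x) = γ • trace y := by
        rw [trace_mul_comm, ← mul_assoc, ← mul_assoc, hx, smul_mul_assoc, one_mul, trace_smul]
      have e4 : trace (x * y * (x * x)) = γ • trace y := by
        rw [mul_assoc, trace_mul_comm, mul_assoc y, mul_assoc x x x, hx', mul_smul_comm, mul_one, trace_smul]
      rw [e3, e4]; exact kadd_self _)
    (by
      rw [tf_add_right, tf_add_right, tf_smul_right, h2, mul_zero, zero_add]
      have e3 : tf x (x * x * y * x) = γ * tf x y := by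
        unfold tf
        rw [← mul_assoc, ← mul_assoc, hx', smul_mul_assoc, one_mul, smul_mul_assoc, trace_smul, trace_mul_comm y x,
          smul_eq_mul]
      have e4 : tf x (x * y * (x * x)) = γ * tf x y := by
        unfold tf
        rw [trace_mul_comm, mul_assoc (x * y), mul_assoc x x x, hx', mul_smul_comm, mul_one, trace_smul, smul_eq_mul]
      rw [e3, e4]; exact kadd_self _)
  rw [e]
  have e5 : x * x * y * x + x * y * (x * x) = q • x + γ • y := by
    rw [← hq]
    have : γ • y + (x * x * y * x + x * y * (x * x)) + γ • y = (x * x * y * x + x * y * (x * x)) + (γ • y + γ • y) := by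
      abel
    rw [this, add_self, add_zero]
  rw [e5, tf_add_left, tf_smul_left, tf_smul_left, h3, mul_zero, zero_add]

/-- first quadratic relation -/
theorem R1 (S : Sys ω γ x a b c) :
    γ * tf a (br b c) = tf x (br a (br c a)) * tf x (br b (br b c)) + tf x (br a (br a b)) * tf x (br c (br b c)) := by
  have h := congrArg (fun m => tf (br x m) (br b c)) S.Q
  have k0 : tf (br x (br x a)) (br b c) = γ := by
    rw [br_br_self, tf_inv, S.h0, tf_comm, S.tf_x_xx]
  have kb : tf (br x b) (br b c) = tf x (br b (br b c)) := tf_inv _ _ _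
  have kc : tf (br x c) (br b c) = tf x (br c (br b c)) := tf_inv _ _ _
  have kD : tf (br x (br b c)) (br b c) = 0 := by rw [tf_inv, br_self, tf_zero_right]
  have kE : tf (br x (br c a)) (br b c) = 0 := by rw [tf_inv, br_comm (br c a)]; exact S.xDE
  have kF : tf (br x (br a b)) (br b c) = 0 := by rw [tf_inv]; exact S.xFD
  simp only [br_add_right, br_smul_right, tf_add_left, tf_smul_left, k0, kb, kc, kD, kE, kF, br_zero_right,
    tf_zero_left] at h
  have h2 := two_zero (K := K)
  apply mul_left_cancel₀ S.t_ne
  linear_combination h - tf a (br b c) * (tf x (br a (br c a)) * tf x (br b (br b c))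
    + tf x (br a (br a b)) * tf x (br c (br b c))) * h2

/-- `t tr ([x,a][x,Y])` for `Y` orthogonal under `[x,·]` to `W`. -/
theorem xx (S : Sys ω γ x a b c) (Y : Matrix (Fin 3) (Fin 3) K)
    (hD : tf (br x (br b c)) Y = 0) (hE : tf (br x (br c a)) Y = 0) (hF : tf (br x (br a b)) Y = 0) :
    tf a (br b c) * tf (br x (br x a)) Y
      = tf x (br a (br c a)) * tf (br x b) Y + tf x (br a (br a b)) * tf (br x c) Y := by
  have h := congrArg (fun m => tf (br x m) Y) S.Q
  simp only [br_add_right, br_smul_right, tf_add_left, tf_smul_left, hD, hE, hF, br_zero_right,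
    tf_zero_left] at h
  have h2 := two_zero (K := K)
  apply mul_left_cancel₀ S.t_ne
  linear_combination h - tf a (br b c) * (tf x (br a (br c a)) * tf (br x b) Y
    + tf x (br a (br a b)) * tf (br x c) Y) * h2

end Sys

end Pool.Agent.H837dc
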