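import Pool.Agent.H837dc.Quad

/-!
Helper file for `MP_525382_al`: the pair `(x, ω x)` with `x³ = ω` over a field with four elements.
-/

set_option autoImplicit false
set_option linter.unusedSectionVars false
set_option linter.unusedVariables false

namespace Pool.Agent.H837dc

open Matrix Module

variable {K : Type*} [Field K]

/-- the companion matrix of `T³ - γ` -/
def cm (γ : K) : Matrix (Fin 3) (Fin 3) K := !![0, 0, γ; 1, 0, 0; 0, 1, 0]

theorem cm_trace (γ : K) : trace (cm γ) = 0 := by
  unfold cm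
  rw [trace_fin_three]
  simp

theorem cm_sq (γ : K) : cm γ * cm γ = !![0, γ, 0; 0, 0, γ; 1, 0, 0] := by
  unfold cm
  ext i j
  fin_cases i <;> fin_cases j <;> simp [Matrix.mul_apply, Fin.sum_univ_three]

theorem cm_cube (γ : K) : cm γ * cm γ * cm γ = γ • (1 : Matrix (Fin 3) (Fin 3) K) := by
  rw [cm_sq]
  unfold cm
  ext i j
  fin_cases i <;> fin_cases j <;> simp [Matrix.mul_apply, Fin.sum_univ_three]

theorem cm_trace_sq (γ : K) : tf (cm γ) (cm γ) = 0 := by
  unfold tf
  rw [cm_sq, trace_fin_three]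
  simp

theorem cm_comm [CharP K 2] (γ : K) (hγ : γ ≠ 0) (y : Matrix (Fin 3) (Fin 3) K) (h : br (cm γ) y = 0) :
    ∃ p q r : K, y = p • (1 : Matrix (Fin 3) (Fin 3) K) + q • cm γ + r • (cm γ * cm γ) := by
  have h' : cm γ * y = y * cm γ := eq_of_add h
  have e : ∀ i j, (cm γ * y) i j = (y * cm γ) i j := fun i j => by rw [h']
  have e00 := e 0 0
  have e01 := e 0 1
  have e02 := e 0 2
  have e10 := e 1 0
  have e11 := e 1 1
  have e12 := e 1 2
  have e20 := e 2 0
  have e21 := e 2 1
  have e22 := e 2 2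
  simp [cm, Matrix.mul_apply, Fin.sum_univ_three] at e00 e01 e02 e10 e11 e12 e20 e21 e22
  refine ⟨y 0 0, y 1 0, y 2 0, ?_⟩
  rw [cm_sq]
  unfold cm
  ext i j
  fin_cases i <;> fin_cases j <;> simp
  · linear_combination -e00
  · linear_combination e12
  · linear_combination -e10
  · linear_combination e22
  · linear_combination -e20
  · linear_combination -e21 - e10

/-- a commutator does not see scalar summands -/
theorem br_add_scalar [CharP K 2] (u v : Matrix (Fin 3) (Fin 3) K) (s : K) :
    br (u + s • (1 : Matrix (Fin 3) (Fin 3) K)) v = br u v := by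
  rw [br_add_left, br_smul_left]
  have : br (1 : Matrix (Fin 3) (Fin 3) K) v = 0 := by unfold br; rw [one_mul, mul_one, add_self]
  rw [this, smul_zero, add_zero]

theorem trace_add_scalar [CharP K 2] (u : Matrix (Fin 3) (Fin 3) K) :
    trace (u + trace u • (1 : Matrix (Fin 3) (Fin 3) K)) = 0 := by
  rw [trace_add, trace_smul, trace_one, Fintype.card_fin, smul_eq_mul]
  have := two_zero (K := K)
  push_cast
  linear_combination (2 * trace u) * this

theorem sys_of_eq [CharP K 2] (ω γ : K) (hω : ω * ω + ω + 1 = 0) (hγ : γ ≠ 0) (a b c : Matrix (Fin 3) (Fin 3) K)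
    (h0 : ⁅a, ⁅b, c⁆⁆ = cm γ) (h1 : ⁅b, ⁅c, a⁆⁆ = ω • cm γ) :
    ∃ a b c : Matrix (Fin 3) (Fin 3) K, Sys ω γ (cm γ) a b c := by
  rw [br_eq_lie, br_eq_lie] at h0 h1
  refine ⟨a + trace a • 1, b + trace b • 1, c + trace c • 1, ?_⟩
  have g0 : br (a + trace a • 1) (br (b + trace b • 1) (c + trace c • 1)) = cm γ := by
    rw [br_add_scalar, br_add_scalar, br_comm b, br_add_scalar, br_comm c, h0]
  have g1 : br (b + trace b • 1) (br (c + trace c • 1) (a + trace a • 1)) = ω • cm γ := by
    rw [br_add_scalar, br_add_scalar, br_comm c, br_add_scalar, br_comm a, h1]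
  refine ⟨hω, hγ, cm_cube γ, cm_trace γ, cm_trace_sq γ, cm_comm γ hγ, trace_add_scalar a, trace_add_scalar b,
    trace_add_scalar c, g0, g1, ?_⟩
  rw [jacobi, br_comm (c + trace c • 1) (b + trace b • 1), g0, g1]
  have : cm γ + ω • cm γ = (1 + ω) • cm γ := by rw [add_smul, one_smul]
  rw [this]
  congr 1
  have h2 := two_zero (K := K)
  linear_combination (1 + ω) * h2 - hω

/-- over a field with four elements the pair `(x, ω x)` with `x` the companion matrix of `T³ - ω` is not attained -/
theorem no_solution (hK : Nat.card K = 4) (ω : K) (hω0 : ω ≠ 0) (hω1 : ω ≠ 1) (a b c : Matrix (Fin 3) (Fin 3) K) :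
    ¬ (⁅a, ⁅b, c⁆⁆ = cm ω ∧ ⁅b, ⁅c, a⁆⁆ = ω • cm ω) := by
  classical
  have : Finite K := Nat.finite_of_card_ne_zero (by rw [hK]; norm_num)
  have : Fintype K := Fintype.ofFinite K
  have hc : Fintype.card K = 4 := by rw [← Nat.card_eq_fintype_card, hK]
  have h4 : (4 : K) = 0 := by
    have := Nat.cast_card_eq_zero K
    rw [hc] at this
    exact_mod_cast this
  have h2 : (2 : K) = 0 := by
    have : (2 : K) * 2 = 0 := by linear_combination h4
    exact mul_self_eq_zero.mp this
  have : CharP K 2 := CharTwo.of_one_ne_zero_of_two_eq_zero one_ne_zero h2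
  have hp : ∀ s : K, s * s * s * s = s := by
    intro s
    have := FiniteField.pow_card s
    rw [hc] at this
    linear_combination this
  have hωq : ω * ω + ω + 1 = 0 := by
    have h := hp ω
    have h' : ω * ((ω - 1) * (ω * ω + ω + 1)) = 0 := by linear_combination h
    exact ((mul_eq_zero.mp h').resolve_left hω0 |> mul_eq_zero.mp).resolve_left (sub_ne_zero.mpr hω1)
  rintro ⟨e0, e1⟩
  obtain ⟨a', b', c', S⟩ := sys_of_eq ω ω hωq hω0 a b c e0 e1
  obtain ⟨t, y1, y2, ht, s1, s2⟩ := S.final
  have ht3 : t * t * t = 1 := by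
    have h := hp t
    apply mul_left_cancel₀ ht
    linear_combination h
  rw [ht3, mul_one] at s1 s2
  rw [S.ω3] at s2
  apply hω0
  -- `y1² = ω y1 + 1` gives `y1⁴ = y1 + ω`
  have q : y1 * y1 = ω * y1 + 1 := by
    linear_combination y1 * s1 - s2 - h2
  have q4 := hp y1
  have : y1 * y1 * y1 * y1 = y1 + ω := by
    have e : y1 * y1 * y1 * y1 = (y1 * y1) * (y1 * y1) := by ring
    rw [e]
    linear_combination (y1 * y1 + ω * y1 + 1) * q + ω * ω * q + y1 * S.ω3 + hωq + (ω * y1 - ω) * h2
  rw [q4] at this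
  linear_combination -this

/-- a field with four elements has an element besides `0` and `1` -/
theorem exists_omega (hK : Nat.card K = 4) : ∃ ω : K, ω ≠ 0 ∧ ω ≠ 1 := by
  classical
  have : Finite K := Nat.finite_of_card_ne_zero (by rw [hK]; norm_num)
  have : Fintype K := Fintype.ofFinite K
  have hc : Fintype.card K = 4 := by rw [← Nat.card_eq_fintype_card, hK]
  obtain ⟨ω, hω⟩ : ∃ ω : K, ω ∉ ({0, 1} : Finset K) := by
    by_contra h
    push Not at h
    have h1 : (Finset.univ : Finset K) ⊆ {0, 1} := fun s _ => h s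
    have h2 := Finset.card_le_card h1
    rw [Finset.card_univ, hc] at h2
    have h3 : ({0, 1} : Finset K).card ≤ 2 := Finset.card_le_two
    omega
  simp only [Finset.mem_insert, Finset.mem_singleton, not_or] at hω
  exact ⟨ω, hω.1, hω.2⟩

/-- a field with four elements exists -/
theorem exists_field : ∃ (K : Type) (_ : Field K), Nat.card K = 4 :=
  ⟨GaloisField 2 2, inferInstance, by rw [GaloisField.card 2 2 (by norm_num)]; norm_num⟩

end Pool.Agent.H837dc
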