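import Pool.Agent.H837dc.TNe

/-!
Helper file for `MP_525382_al`: the orthogonal complement of `V + [V,V] + Kx + K1`.
-/

set_option autoImplicit false
set_option linter.unusedSectionVars false
set_option linter.unusedVariables false

namespace Pool.Agent.H837dc

open Matrix Module

variable {K : Type*} [Field K] [CharP K 2]

theorem ortho_abs (a b c D E F x : Matrix (Fin 3) (Fin 3) K) (t : K) (ht : t ≠ 0) (hx0 : x ≠ 0)
    (ta : trace a = 0) (tb : trace b = 0) (tc : trace c = 0) (tD : trace D = 0) (tE : trace E = 0)
    (tF : trace F = 0) (tx : trace x = 0)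
    (aD : tf a D = t) (bD : tf b D = 0) (cD : tf c D = 0)
    (aE : tf a E = 0) (bE : tf b E = t) (cE : tf c E = 0)
    (aF : tf a F = 0) (bF : tf b F = 0) (cF : tf c F = t)
    (DD : tf D D = 0) (EE : tf E E = 0) (FF : tf F F = 0) (DE : tf D E = 0) (EF : tf E F = 0) (FD : tf F D = 0)
    (xa : tf x a = 0) (xb : tf x b = 0) (xc : tf x c = 0) (xD : tf x D = 0) (xE : tf x E = 0) (xF : tf x F = 0)
    (xx : tf x x = 0)
    (y : Matrix (Fin 3) (Fin 3) K) (y1 : trace y = 0) (ya : tf a y = 0) (yb : tf b y = 0) (yc : tf c y = 0)
    (yD : tf D y = 0) (yE : tf E y = 0) (yF : tf F y = 0) (yx : tf x y = 0) :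
    ∃ κ : K, y = κ • x := by
  have t1 : trace (1 : Matrix (Fin 3) (Fin 3) K) = 1 := by
    rw [trace_one, Fintype.card_fin]
    have := two_zero (K := K)
    push_cast
    linear_combination this
  have hg : LinearIndependent K ![(1 : Matrix (Fin 3) (Fin 3) K), a, b, c, D, E, F, x] := by
    rw [Fintype.linearIndependent_iff]
    intro g hg
    simp only [Fin.sum_univ_eight, Matrix.cons_val_zero, Matrix.cons_val_one, Matrix.cons_val_two,
      Matrix.cons_val, Matrix.head_cons, Matrix.tail_cons] at hg
    have DE' : tf E D = 0 := by rw [tf_comm]; exact DE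
    have EF' : tf F E = 0 := by rw [tf_comm]; exact EF
    have FD' : tf D F = 0 := by rw [tf_comm]; exact FD
    have g0 : g 0 = 0 := by
      have := congrArg trace hg
      simp only [trace_add, trace_smul, t1, tx, ta, tb, tc, tD, tE, tF, trace_zero, smul_eq_mul] at this
      linear_combination this
    have g1 : g 1 = 0 := by
      have := congrArg (fun m => tf m D) hg
      simp only [tf_add_left, tf_smul_left, tf_zero_left, tf_one_left, tD, aD, bD, cD, DD, DE', FD, xD] at this
      have h' : g 1 * t = 0 := by linear_combination this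
      exact (mul_eq_zero.mp h').resolve_right ht
    have g2 : g 2 = 0 := by
      have := congrArg (fun m => tf m E) hg
      simp only [tf_add_left, tf_smul_left, tf_zero_left, tf_one_left, tE, aE, bE, cE, DE, EE, EF', xE] at this
      have h' : g 2 * t = 0 := by linear_combination this
      exact (mul_eq_zero.mp h').resolve_right ht
    have g3 : g 3 = 0 := by
      have := congrArg (fun m => tf m F) hg
      simp only [tf_add_left, tf_smul_left, tf_zero_left, tf_one_left, tF, aF, bF, cF, FD', EF, FF, xF] at this
      have h' : g 3 * t = 0 := by linear_combination this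
      exact (mul_eq_zero.mp h').resolve_right ht
    rw [g0, g1, g2, g3, zero_smul, zero_smul, zero_smul, zero_smul, zero_add, zero_add, zero_add, zero_add] at hg
    have Da : tf D a = t := by rw [tf_comm]; exact aD
    have Db : tf D b = 0 := by rw [tf_comm]; exact bD
    have Dc : tf D c = 0 := by rw [tf_comm]; exact cD
    have Ea : tf E a = 0 := by rw [tf_comm]; exact aE
    have Eb : tf E b = t := by rw [tf_comm]; exact bE
    have Ec : tf E c = 0 := by rw [tf_comm]; exact cE
    have Fa : tf F a = 0 := by rw [tf_comm]; exact aF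
    have Fb : tf F b = 0 := by rw [tf_comm]; exact bF
    have Fc : tf F c = t := by rw [tf_comm]; exact cF
    have g4 : g 4 = 0 := by
      have := congrArg (fun m => tf m a) hg
      simp only [tf_add_left, tf_smul_left, tf_zero_left, Da, Ea, Fa, xa] at this
      have h' : g 4 * t = 0 := by linear_combination this
      exact (mul_eq_zero.mp h').resolve_right ht
    have g5 : g 5 = 0 := by
      have := congrArg (fun m => tf m b) hg
      simp only [tf_add_left, tf_smul_left, tf_zero_left, Db, Eb, Fb, xb] at this
      have h' : g 5 * t = 0 := by linear_combination this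
      exact (mul_eq_zero.mp h').resolve_right ht
    have g6 : g 6 = 0 := by
      have := congrArg (fun m => tf m c) hg
      simp only [tf_add_left, tf_smul_left, tf_zero_left, Dc, Ec, Fc, xc] at this
      have h' : g 6 * t = 0 := by linear_combination this
      exact (mul_eq_zero.mp h').resolve_right ht
    rw [g4, g5, g6, zero_smul, zero_smul, zero_smul, zero_add, zero_add, zero_add] at hg
    have g7 : g 7 = 0 := (smul_eq_zero.mp hg).resolve_right hx0
    intro i
    fin_cases i
    · exact g0
    · exact g1
    · exact g2
    · exact g3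
    · exact g4
    · exact g5
    · exact g6
    · exact g7
  have hh : LinearIndependent K ![x] := by
    rw [Fintype.linearIndependent_iff]
    intro g hg i
    simp only [Fin.sum_univ_one, Matrix.cons_val_fin_one] at hg
    fin_cases i
    exact (smul_eq_zero.mp hg).resolve_right hx0
  have ax : tf a x = 0 := by rw [tf_comm]; exact xa
  have bx : tf b x = 0 := by rw [tf_comm]; exact xb
  have cx : tf c x = 0 := by rw [tf_comm]; exact xc
  have Dx : tf D x = 0 := by rw [tf_comm]; exact xD
  have Ex : tf E x = 0 := by rw [tf_comm]; exact xE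
  have Fx : tf F x = 0 := by rw [tf_comm]; exact xF
  have mem := orth_span ![(1 : Matrix (Fin 3) (Fin 3) K), a, b, c, D, E, F, x] ![x] hg hh (by norm_num)
    (by
      intro i j
      fin_cases i <;> fin_cases j <;> simp only [Fin.zero_eta, Fin.mk_one, Fin.reduceFinMk, Matrix.cons_val_zero,
        Matrix.cons_val_one, Matrix.cons_val_two, Matrix.cons_val, Matrix.head_cons, Matrix.tail_cons, Fin.isValue,
        Matrix.cons_val_fin_one]
      · rw [tf_one_left]; exact tx
      · exact ax
      · exact bx
      · exact cx
      · exact Dx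
      · exact Ex
      · exact Fx
      · exact xx)
    y
    (by
      intro i
      fin_cases i <;> simp only [Fin.zero_eta, Fin.mk_one, Fin.reduceFinMk, Matrix.cons_val_zero,
        Matrix.cons_val_one, Matrix.cons_val_two, Matrix.cons_val, Matrix.head_cons, Matrix.tail_cons, Fin.isValue]
      · rw [tf_one_left]; exact y1
      · exact ya
      · exact yb
      · exact yc
      · exact yD
      · exact yE
      · exact yF
      · exact yx)
  rw [Submodule.mem_span_range_iff_exists_fun] at mem
  obtain ⟨g, hg⟩ := mem
  simp only [Fin.sum_univ_one, Matrix.cons_val_fin_one] at hg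
  exact ⟨g 0, hg.symm⟩

namespace Sys

variable {ω γ : K} {x a b c : Matrix (Fin 3) (Fin 3) K}

theorem ortho (S : Sys ω γ x a b c)
    (y : Matrix (Fin 3) (Fin 3) K) (y1 : trace y = 0) (ya : tf a y = 0) (yb : tf b y = 0) (yc : tf c y = 0)
    (yD : tf (br b c) y = 0) (yE : tf (br c a) y = 0) (yF : tf (br a b) y = 0) (yx : tf x y = 0) :
    ∃ κ : K, y = κ • x :=
  ortho_abs a b c (br b c) (br c a) (br a b) x (tf a (br b c)) S.t_ne S.x_ne S.ta S.tb S.tc
    (trace_br _ _) (trace_br _ _) (trace_br _ _) S.tx rfl (tf_br_self _ _) (tf_br_self' _ _)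
    (tf_br_self' _ _) S.tE (tf_br_self _ _) (tf_br_self _ _) (tf_br_self' _ _) S.tF
    (trace_sq _ _) (trace_sq _ _) (trace_sq _ _) S.DE S.EF S.FD S.xa S.xb S.xc S.xD S.xE S.xF S.txx
    y y1 ya yb yc yD yE yF yx

end Sys

end Pool.Agent.H837dc
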