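import Pool.Agent.H837dc.Cubic

/-!
Helper file for `MP_525382_al`: a solution of the system gives a root of a quadratic polynomial.
-/

set_option autoImplicit false
set_option linter.unusedSectionVars false
set_option linter.unusedVariables false

namespace Pool.Agent.H837dc

open Matrix Module

variable {K : Type*} [Field K] [CharP K 2]

namespace Sys

variable {ω γ : K} {x a b c : Matrix (Fin 3) (Fin 3) K}

theorem xxb (S : Sys ω γ x a b c) (Y : Matrix (Fin 3) (Fin 3) K)
    (hD : tf (br x (br b c)) Y = 0) (hE : tf (br x (br c a)) Y = 0) (hF : tf (br x (br a b)) Y = 0) :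
    tf a (br b c) * tf (br x (br x b)) Y
      = tf x (br b (br a b)) * tf (br x c) Y + tf x (br b (br b c)) * tf (br x a) Y := by
  have h := S.rot.xx Y (by rw [br_smul_left, tf_smul_left, hE, mul_zero]) (by rw [br_smul_left, tf_smul_left, hF, mul_zero])
    (by rw [br_smul_left, tf_smul_left, hD, mul_zero])
  rw [S.tE] at h
  simp only [br_smul_left, br_smul_right, tf_smul_left] at h
  apply mul_left_cancel₀ (mul_ne_zero S.ω_ne S.ω_ne)
  linear_combination h

theorem xxc (S : Sys ω γ x a b c) (Y : Matrix (Fin 3) (Fin 3) K)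
    (hD : tf (br x (br b c)) Y = 0) (hE : tf (br x (br c a)) Y = 0) (hF : tf (br x (br a b)) Y = 0) :
    tf a (br b c) * tf (br x (br x c)) Y
      = tf x (br c (br b c)) * tf (br x a) Y + tf x (br c (br c a)) * tf (br x b) Y := by
  have h := S.rot.xxb Y (by rw [br_smul_left, tf_smul_left, hE, mul_zero]) (by rw [br_smul_left, tf_smul_left, hF, mul_zero])
    (by rw [br_smul_left, tf_smul_left, hD, mul_zero])
  rw [S.tE] at h
  simp only [br_smul_left, br_smul_right, tf_smul_left] at h
  apply mul_left_cancel₀ (mul_ne_zero S.ω_ne S.ω_ne)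
  linear_combination h

theorem xDxD (S : Sys ω γ x a b c) : tf (br x (br b c)) (br x (br b c)) = 0 := trace_sq _ _

/-- moving `[x, ·]` -/
theorem mv (x M Z : Matrix (Fin 3) (Fin 3) K) : tf (br x M) Z = tf M (br x Z) := by
  rw [br_comm, tf_inv]

/-- the rotated first relations -/
theorem R1b (S : Sys ω γ x a b c) :
    ω * (γ * tf a (br b c)) = tf x (br b (br a b)) * tf x (br c (br c a)) + tf x (br b (br b c)) * tf x (br a (br c a)) := by
  have h := S.rot.R1
  rw [S.tE] at h
  simp only [tf_smul_left] at h
  have h3 := S.ω3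
  linear_combination ω * h + (tf x (br b (br a b)) * tf x (br c (br c a)) + tf x (br b (br b c)) * tf x (br a (br c a))) * h3

theorem R1c (S : Sys ω γ x a b c) :
    ω * ω * (γ * tf a (br b c)) = tf x (br c (br b c)) * tf x (br a (br a b)) + tf x (br c (br c a)) * tf x (br b (br a b)) := by
  have h := S.rot.R1b
  rw [S.tE] at h
  simp only [tf_smul_left] at h
  have h3 := S.ω3
  linear_combination ω * h + (tf x (br c (br b c)) * tf x (br a (br a b)) + tf x (br c (br c a)) * tf x (br b (br a b))) * h3

/-- main consequence -/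
theorem final (S : Sys ω γ x a b c) : ∃ t y1 y2 : K, t ≠ 0 ∧ y1 + y2 = γ * (t * t * t) ∧
    y1 * y2 = γ * γ * γ * (t * t * t) := by
  have h2 := two_zero (K := K)
  have h3 := S.ω3
  have ht := S.t_ne
  have DD : tf (br x (br b c)) (br x (br b c)) = 0 := trace_sq _ _
  have EE : tf (br x (br c a)) (br x (br c a)) = 0 := trace_sq _ _
  have FF : tf (br x (br a b)) (br x (br a b)) = 0 := trace_sq _ _
  have DE := S.xDxE
  have EF := S.xExF
  have FD := S.xFxD
  have ED : tf (br x (br c a)) (br x (br b c)) = 0 := by rw [tf_comm]; exact DE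
  have FE : tf (br x (br a b)) (br x (br c a)) = 0 := by rw [tf_comm]; exact EF
  have DF : tf (br x (br b c)) (br x (br a b)) = 0 := by rw [tf_comm]; exact FD
  -- third order in `a`
  have aD := S.xx (br x (br b c)) DD ED FD
  have aE := S.xx (br x (br c a)) DE EE FE
  have aF := S.xx (br x (br a b)) DF EF FF
  have cuD : tf (br x (br x a)) (br x (br b c)) = γ * tf a (br b c) :=
    (mv x (br x (br x a)) (br b c)).symm.trans (S.cube a _ S.ta S.xa S.xD)
  have cuE : tf (br x (br x a)) (br x (br c a)) = 0 := by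
    rw [(mv x (br x (br x a)) (br c a)).symm.trans (S.cube a _ S.ta S.xa S.xE),
      show tf a (br c a) = 0 from tf_br_self' _ _, mul_zero]
  have cuF : tf (br x (br x a)) (br x (br a b)) = 0 := by
    rw [(mv x (br x (br x a)) (br a b)).symm.trans (S.cube a _ S.ta S.xa S.xF),
      show tf a (br a b) = 0 from tf_br_self _ _, mul_zero]
  rw [cuD] at aD
  rw [cuE, mul_zero] at aE
  rw [cuF, mul_zero] at aF
  -- second order pairings
  have zDD : tf (br x (br b c)) (br b c) = 0 := by rw [tf_inv, br_self, tf_zero_right]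
  have zEE : tf (br x (br c a)) (br c a) = 0 := by rw [tf_inv, br_self, tf_zero_right]
  have zFF : tf (br x (br a b)) (br a b) = 0 := by rw [tf_inv, br_self, tf_zero_right]
  have zDE : tf (br x (br b c)) (br c a) = 0 := by rw [tf_inv]; exact S.xDE
  have zEF : tf (br x (br c a)) (br a b) = 0 := by rw [tf_inv]; exact S.xEF
  have zFD : tf (br x (br a b)) (br b c) = 0 := by rw [tf_inv]; exact S.xFD
  have zED : tf (br x (br c a)) (br b c) = 0 := by rw [tf_inv, br_comm (br c a)]; exact S.xDE
  have zFE : tf (br x (br a b)) (br c a) = 0 := by rw [tf_inv, br_comm (br a b)]; exact S.xEF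
  have zDF : tf (br x (br b c)) (br a b) = 0 := by rw [tf_inv, br_comm (br b c)]; exact S.xFD
  have bD := S.xxb (br b c) zDD zED zFD
  have bE := S.xxb (br c a) zDE zEE zFE
  have bF := S.xxb (br a b) zDF zEF zFF
  have cD := S.xxc (br b c) zDD zED zFD
  have cE := S.xxc (br c a) zDE zEE zFE
  have cF := S.xxc (br a b) zDF zEF zFF
  have txx := S.txx
  rw [mv x (br x b), tf_inv x c, tf_inv x a, S.h0, txx] at bD
  rw [mv x (br x b), tf_inv x c, tf_inv x a] at bE
  rw [mv x (br x b), tf_inv x c, tf_inv x a, S.h2, tf_smul_right, txx] at bF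
  rw [mv x (br x c), tf_inv x a, tf_inv x b, S.h0, txx] at cD
  rw [mv x (br x c), tf_inv x a, tf_inv x b, S.h1, tf_smul_right, txx] at cE
  rw [mv x (br x c), tf_inv x a, tf_inv x b] at cF
  have r1 := S.R1
  have r2 := S.R1b
  have r3 := S.R1c
  -- abbreviations
  generalize tf x (br a (br c a)) = β01 at *
  generalize tf x (br a (br a b)) = β02 at *
  generalize tf x (br b (br b c)) = β10 at *
  generalize tf x (br b (br a b)) = β12 at *
  generalize tf x (br c (br b c)) = β20 at *
  generalize tf x (br c (br c a)) = β21 at *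
  generalize tf (br x b) (br x (br b c)) = Y1 at *
  generalize tf (br x b) (br x (br c a)) = Y2 at *
  generalize tf (br x b) (br x (br a b)) = Y3 at *
  generalize tf (br x c) (br x (br b c)) = Z1 at *
  generalize tf (br x c) (br x (br c a)) = Z2 at *
  generalize tf (br x c) (br x (br a b)) = Z3 at *
  generalize tf a (br b c) = t at *
  have s1 : γ * (t * t * t) = β01 * β12 * β20 + β02 * β21 * β10 := by
    linear_combination t * aD + β01 * bD + β02 * cD
  have s2 : β01 * (ω * γ * t + β02 * β20) = 0 := by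
    linear_combination (-t) * aE - β01 * bE - β02 * cE + β01 * r2
  have s3 : β02 * (β01 * β10 + ω * ω * γ * t) = 0 := by
    linear_combination (-t) * aF - β01 * bF - β02 * cF + β02 * r3
  have hγ := S.hγ
  have hω := S.ω_ne
  have n02 : β01 ≠ 0 → β02 ≠ 0 := by
    intro h h'
    have := (mul_eq_zero.mp s2).resolve_left h
    rw [h', zero_mul, add_zero] at this
    exact mul_ne_zero (mul_ne_zero hω hγ) ht this
  have n01 : β01 ≠ 0 := by
    intro h
    rcases mul_eq_zero.mp s3 with h' | h'
    · rw [h, h'] at r1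
      apply mul_ne_zero hγ ht
      rw [r1]; ring
    · rw [h, zero_mul, zero_add] at h'
      exact mul_ne_zero (mul_ne_zero (mul_ne_zero hω hω) hγ) ht h'
  have e1 := (mul_eq_zero.mp s2).resolve_left n01
  have e2 := (mul_eq_zero.mp s3).resolve_left (n02 n01)
  have f1 : β02 * β20 = ω * γ * t := by linear_combination e1 - ω * γ * t * h2
  have f2 : β01 * β10 = ω * ω * γ * t := by linear_combination e2 - ω * ω * γ * t * h2
  have f3 : β12 * β21 = γ * t := by
    linear_combination (-1) * r2 - f2 + γ * t * S.hω - γ * t * h2 - ω * ω * γ * t * h2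
  refine ⟨t, β01 * β12 * β20, β02 * β21 * β10, ht, s1.symm, ?_⟩
  have : β01 * β12 * β20 * (β02 * β21 * β10) = (β01 * β10) * (β12 * β21) * (β02 * β20) := by ring
  rw [this, f1, f2, f3]
  linear_combination (γ * γ * γ * (t * t * t)) * h3

end Sys

end Pool.Agent.H837dc
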