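import Pool.Agent.H837dc.Ortho

/-!
Helper file for `MP_525382_al`: the matrices `[e_i, f_j]` and the elements `[x, e_i]`.
-/

set_option autoImplicit false
set_option linter.unusedSectionVars false
set_option linter.unusedVariables false

namespace Pool.Agent.H837dc

open Matrix Module

variable {K : Type*} [Field K] [CharP K 2]

/-- trace zero and orthogonal to `a, b, c, [b,c], [c,a], [a,b]` -/
structure Perp (a b c T : Matrix (Fin 3) (Fin 3) K) : Prop where
  tr : trace T = 0
  pa : tf a T = 0
  pb : tf b T = 0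
  pc : tf c T = 0
  pD : tf (br b c) T = 0
  pE : tf (br c a) T = 0
  pF : tf (br a b) T = 0

theorem Perp.rot {a b c T : Matrix (Fin 3) (Fin 3) K} (P : Perp a b c T) : Perp b c a T :=
  ⟨P.tr, P.pb, P.pc, P.pa, P.pE, P.pF, P.pD⟩

theorem Perp.rot' {a b c T : Matrix (Fin 3) (Fin 3) K} (P : Perp b c a T) : Perp a b c T :=
  P.rot.rot

namespace Sys

variable {ω γ : K} {x a b c : Matrix (Fin 3) (Fin 3) K}

theorem ff (a : Matrix (Fin 3) (Fin 3) K) (h : trace a = 0) : tf a a = 0 := by
  rw [tf_sq, h, mul_zero]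

theorem P01 (S : Sys ω γ x a b c) : Perp a b c (br a (br c a)) := by
  refine ⟨trace_br _ _, tf_br_self _ _, ?_, ?_, ?_, tf_br_self' _ _, ?_⟩
  · rw [← tf_inv, br_comm b a, tf_comm]; exact S.EF
  · rw [← tf_inv]; exact ff _ (trace_br _ _)
  · rw [← tf_inv, br_comm _ a, S.h0]; exact S.xE
  · have e1 : br a (br c a) = br (a * a) c := by rw [br_comm c a, br_br_self]
    rw [e1, tf_comm, tf_inv, S.h2, tf_smul_right, tf_comm, S.xaa, mul_zero]

theorem P02 (S : Sys ω γ x a b c) : Perp a b c (br a (br a b)) := by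
  refine ⟨trace_br _ _, tf_br_self _ _, ?_, ?_, ?_, ?_, tf_br_self' _ _⟩
  · rw [← tf_inv, br_comm b a]; exact ff _ (trace_br _ _)
  · rw [← tf_inv]; exact S.EF
  · rw [← tf_inv, br_comm _ a, S.h0]; exact S.xF
  · rw [br_br_self, tf_comm, tf_inv, S.h1, tf_smul_right, tf_comm, S.xaa, mul_zero]

theorem P12 (S : Sys ω γ x a b c) : Perp a b c (br b (br a b)) := S.rot.P01.rot'

theorem P10 (S : Sys ω γ x a b c) : Perp a b c (br b (br b c)) := S.rot.P02.rot'

theorem P20 (S : Sys ω γ x a b c) : Perp a b c (br c (br b c)) := S.rot.rot.P01.rot'.rot'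

theorem P21 (S : Sys ω γ x a b c) : Perp a b c (br c (br c a)) := S.rot.rot.P02.rot'.rot'

/-- the shape of `[x, a]` -/
theorem Q1 (S : Sys ω γ x a b c) : ∃ n : K,
    (tf a (br b c) * tf a (br b c)) • br x a
      + (tf a (br b c) * tf x (br a (br c a))) • b + (tf a (br b c) * tf x (br a (br a b))) • c
      + (tf x (br a (br c a)) * tf a b + tf x (br a (br a b)) * tf c a) • br b c
      + (tf x (br a (br a b)) * tf b c) • br c a
      + (tf x (br a (br c a)) * tf b c) • br a b = n • x := by
  have bb : tf b b = 0 := ff _ S.tb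
  have cc : tf c c = 0 := ff _ S.tc
  have hE := S.tE
  have hF := S.tF
  have DE := S.DE
  have EF := S.EF
  have FD := S.FD
  have ED : tf (br c a) (br b c) = 0 := by rw [tf_comm]; exact DE
  have FE : tf (br a b) (br c a) = 0 := by rw [tf_comm]; exact EF
  have DF : tf (br b c) (br a b) = 0 := by rw [tf_comm]; exact FD
  have DD : tf (br b c) (br b c) = 0 := trace_sq _ _
  have EE : tf (br c a) (br c a) = 0 := trace_sq _ _
  have FF : tf (br a b) (br a b) = 0 := trace_sq _ _
  set t := tf a (br b c) with ht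
  set β := tf x (br a (br c a)) with hβ
  set β' := tf x (br a (br a b)) with hβ'
  have aE : tf a (br c a) = 0 := tf_br_self' _ _
  have aF : tf a (br a b) = 0 := tf_br_self _ _
  have bD : tf b (br b c) = 0 := tf_br_self _ _
  have bF : tf b (br a b) = 0 := tf_br_self' _ _
  have cD : tf c (br b c) = 0 := tf_br_self' _ _
  have cE : tf c (br c a) = 0 := tf_br_self _ _
  have axa : tf a (br x a) = 0 := tf_br_self' _ _
  have bxa : tf b (br x a) = 0 := by
    rw [br_comm x a, ← tf_inv, br_comm b a, tf_comm]; exact S.xF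
  have cxa : tf c (br x a) = 0 := by
    rw [br_comm x a, ← tf_inv, tf_comm]; exact S.xE
  have Dxa : tf (br b c) (br x a) = 0 := by
    rw [br_comm x a, ← tf_inv, br_comm _ a, S.h0]; exact S.txx
  have Exa : tf (br c a) (br x a) = β := by
    rw [br_comm x a, ← tf_inv, br_comm _ a, tf_comm]
  have Fxa : tf (br a b) (br x a) = β' := by
    rw [br_comm x a, ← tf_inv, br_comm _ a, tf_comm]
  have xxa : tf x (br x a) = 0 := tf_br_self _ _
  have ba : tf b a = tf a b := tf_comm _ _
  have ca : tf a c = tf c a := tf_comm _ _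
  have cb : tf c b = tf b c := tf_comm _ _
  have Da : tf (br b c) a = t := by rw [tf_comm]
  have Db : tf (br b c) b = 0 := by rw [tf_comm]; exact bD
  have Dc : tf (br b c) c = 0 := by rw [tf_comm]; exact cD
  have Ea : tf (br c a) a = 0 := by rw [tf_comm]; exact aE
  have Eb : tf (br c a) b = t := by rw [tf_comm]; exact hE
  have Ec : tf (br c a) c = 0 := by rw [tf_comm]; exact cE
  have Fa : tf (br a b) a = 0 := by rw [tf_comm]; exact aF
  have Fb : tf (br a b) b = 0 := by rw [tf_comm]; exact bF
  have Fc : tf (br a b) c = t := by rw [tf_comm]; exact hF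
  have h2 := two_zero (K := K)
  apply S.ortho
  · simp only [trace_add, trace_smul, S.tb, S.tc, trace_br, smul_eq_mul]; ring
  · simp only [tf_add_right, tf_smul_right, axa, ca, aE, aF]
    linear_combination (t * β * tf a b + t * β' * tf c a) * h2
  · simp only [tf_add_right, tf_smul_right, bxa, bb, bD, hE, bF]
    linear_combination (t * β' * tf b c) * h2
  · simp only [tf_add_right, tf_smul_right, cxa, cc, cb, cD, cE, hF]
    linear_combination (t * β * tf b c) * h2
  · simp only [tf_add_right, tf_smul_right, Dxa, Db, Dc, DD, DE, DF]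
    ring
  · simp only [tf_add_right, tf_smul_right, Exa, Eb, Ec, ED, EE, EF]
    linear_combination (t * t * β) * h2
  · simp only [tf_add_right, tf_smul_right, Fxa, Fb, Fc, FD, FE, FF]
    linear_combination (t * t * β') * h2
  · simp only [tf_add_right, tf_smul_right, xxa, S.xb, S.xc, S.xD, S.xE, S.xF]
    ring

/-- proportionality on the complement -/
theorem L1a (S : Sys ω γ x a b c) (T p : Matrix (Fin 3) (Fin 3) K) (hT : Perp a b c T) (hp : Perp a b c p) :
    tf x p * tf (br x a) T = tf x T * tf (br x a) p := by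
  obtain ⟨n, hn⟩ := S.Q1
  have h1 := congrArg (fun m => tf m T) hn
  have h2 := congrArg (fun m => tf m p) hn
  simp only [tf_add_left, tf_smul_left, hT.pb, hT.pc, hT.pD, hT.pE, hT.pF, hp.pb, hp.pc, hp.pD, hp.pE, hp.pF] at h1 h2
  have ht := S.t_ne
  have : (tf a (br b c) * tf a (br b c)) * (tf x p * tf (br x a) T) =
      (tf a (br b c) * tf a (br b c)) * (tf x T * tf (br x a) p) := by
    linear_combination tf x p * h1 - tf x T * h2
  exact mul_left_cancel₀ (mul_ne_zero ht ht) this

theorem L1b (S : Sys ω γ x a b c) (T p : Matrix (Fin 3) (Fin 3) K) (hT : Perp a b c T) (hp : Perp a b c p) :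
    tf x p * tf (br x b) T = tf x T * tf (br x b) p := by
  have h := S.rot.L1a T p hT.rot hp.rot
  simp only [br_smul_left, tf_smul_left] at h
  have : (ω * ω) * (tf x p * tf (br x b) T) = (ω * ω) * (tf x T * tf (br x b) p) := by
    linear_combination h
  exact mul_left_cancel₀ (mul_ne_zero S.ω_ne S.ω_ne) this

theorem L1c (S : Sys ω γ x a b c) (T p : Matrix (Fin 3) (Fin 3) K) (hT : Perp a b c T) (hp : Perp a b c p) :
    tf x p * tf (br x c) T = tf x T * tf (br x c) p := by
  have h := S.rot.L1b T p hT.rot hp.rot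
  simp only [br_smul_left, tf_smul_left] at h
  have : (ω * ω) * (tf x p * tf (br x c) T) = (ω * ω) * (tf x T * tf (br x c) p) := by
    linear_combination h
  exact mul_left_cancel₀ (mul_ne_zero S.ω_ne S.ω_ne) this

/-- the complement is spanned by `x` and `p` -/
theorem span_p (S : Sys ω γ x a b c) (T p : Matrix (Fin 3) (Fin 3) K) (hT : Perp a b c T) (hp : Perp a b c p) :
    ∃ A : K, tf x p • T = A • x + tf x T • p := by
  obtain ⟨A, hA⟩ := S.ortho (tf x p • T + tf x T • p)
    (by rw [trace_add, trace_smul, trace_smul, hT.tr, hp.tr]; simp)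
    (by rw [tf_add_right, tf_smul_right, tf_smul_right, hT.pa, hp.pa]; ring)
    (by rw [tf_add_right, tf_smul_right, tf_smul_right, hT.pb, hp.pb]; ring)
    (by rw [tf_add_right, tf_smul_right, tf_smul_right, hT.pc, hp.pc]; ring)
    (by rw [tf_add_right, tf_smul_right, tf_smul_right, hT.pD, hp.pD]; ring)
    (by rw [tf_add_right, tf_smul_right, tf_smul_right, hT.pE, hp.pE]; ring)
    (by rw [tf_add_right, tf_smul_right, tf_smul_right, hT.pF, hp.pF]; ring)
    (by rw [tf_add_right, tf_smul_right, tf_smul_right, mul_comm (tf x T)]; exact kadd_self _)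
  refine ⟨A, ?_⟩
  rw [← hA, add_assoc, add_self, add_zero]

/-- the combination `n_a D + n_b E + n_c F` commutes with `c`. -/
theorem Nc (S : Sys ω γ x a b c) (p : Matrix (Fin 3) (Fin 3) K) (hp : Perp a b c p) (hs : tf x p ≠ 0) :
    br c (tf (br x a) p • br b c + tf (br x b) p • br c a + tf (br x c) p • br a b) = 0 := by
  have h2 := two_zero (K := K)
  obtain ⟨A20, e20⟩ := S.span_p _ p S.P20 hp
  obtain ⟨A21, e21⟩ := S.span_p _ p S.P21 hp
  -- first: the `β` relation
  have r1 := S.L1a _ p S.P20 hp
  have r2 := S.L1b _ p S.P21 hp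
  have k1 : tf (br x a) (br c (br b c)) = tf x (br (br b c) (br c a)) := by
    rw [tf_inv, jacobi, S.h0, tf_add_right, tf_br_self', zero_add, br_comm a c]
  have k2 : tf (br x b) (br c (br c a)) = tf x (br (br b c) (br c a)) := by
    rw [tf_inv, jacobi, S.h1, tf_add_right, br_smul_right, tf_smul_right, tf_br_self', mul_zero, zero_add, br_comm (br c a)]
  rw [k1] at r1
  rw [k2] at r2
  -- second: the `A` relation
  have m1 := congrArg (fun m => tf (br a p) m) e20
  have m2 := congrArg (fun m => tf (br b p) m) e21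
  simp only [tf_add_right, tf_smul_right] at m1 m2
  have k3 : tf (br a p) (br c (br b c)) = tf (br x c) p + tf p (br (br b c) (br c a)) := by
    rw [br_comm a p, tf_inv, jacobi, S.h0, tf_add_right, br_comm a c, br_comm c x, tf_comm p (br x c)]
  have k4 : tf (br b p) (br c (br c a)) = ω * tf (br x c) p + tf p (br (br b c) (br c a)) := by
    rw [br_comm b p, tf_inv, jacobi, S.h1, tf_add_right, br_smul_right, tf_smul_right, br_comm c x, tf_comm p (br x c),
      br_comm (br c a)]
  have k5 : tf (br a p) p = 0 := tf_br_self''' _ _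
  have k6 : tf (br b p) p = 0 := tf_br_self''' _ _
  have k7 : tf (br a p) x = tf (br x a) p := by rw [tf_comm, ← tf_inv]
  have k8 : tf (br b p) x = tf (br x b) p := by rw [tf_comm, ← tf_inv]
  rw [k3, k5, k7] at m1
  rw [k4, k6, k8] at m2
  have e : br c (tf (br x a) p • br b c + tf (br x b) p • br c a + tf (br x c) p • br a b)
      = tf (br x a) p • br c (br b c) + tf (br x b) p • br c (br c a) + (tf (br x c) p * (ω * ω)) • x := by
    rw [br_add_right, br_add_right, br_smul_right, br_smul_right, br_smul_right, S.h2, smul_smul]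
  have goal : tf x p • br c (tf (br x a) p • br b c + tf (br x b) p • br c a + tf (br x c) p • br a b) = 0 := by
    rw [e, smul_add, smul_add, smul_comm (tf x p) (tf (br x a) p), smul_comm (tf x p) (tf (br x b) p), e20, e21, smul_smul]
    have : tf (br x a) p • (A20 • x + tf x (br c (br b c)) • p) + tf (br x b) p • (A21 • x + tf x (br c (br c a)) • p)
        + (tf x p * (tf (br x c) p * (ω * ω))) • x
        = (A20 * tf (br x a) p + A21 * tf (br x b) p + tf x p * (tf (br x c) p * (ω * ω))) • x
          + (tf x (br c (br b c)) * tf (br x a) p + tf x (br c (br c a)) * tf (br x b) p) • p := by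
      module
    rw [this]
    have z1 : A20 * tf (br x a) p + A21 * tf (br x b) p + tf x p * (tf (br x c) p * (ω * ω)) = 0 := by
      linear_combination (-1) * m1 - m2 + tf x p * tf (br x c) p * S.hω + tf x p * tf p (br (br b c) (br c a)) * h2
    have z2 : tf x (br c (br b c)) * tf (br x a) p + tf x (br c (br c a)) * tf (br x b) p = 0 := by
      linear_combination (-1) * r1 - r2 + tf x p * tf x (br (br b c) (br c a)) * h2
    rw [z1, z2, zero_smul, zero_smul, add_zero]
  exact (smul_eq_zero.mp goal).resolve_left hs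

theorem Na (S : Sys ω γ x a b c) (p : Matrix (Fin 3) (Fin 3) K) (hp : Perp a b c p) (hs : tf x p ≠ 0) :
    br a (tf (br x a) p • br b c + tf (br x b) p • br c a + tf (br x c) p • br a b) = 0 := by
  have h := S.rot.Nc p hp.rot (by rw [tf_smul_left]; exact mul_ne_zero S.ω_ne hs)
  simp only [br_smul_left, tf_smul_left, mul_smul] at h
  rw [← smul_add, ← smul_add, br_smul_right] at h
  have := (smul_eq_zero.mp h).resolve_left S.ω_ne
  rw [← this]
  congr 1
  abel

theorem Nb (S : Sys ω γ x a b c) (p : Matrix (Fin 3) (Fin 3) K) (hp : Perp a b c p) (hs : tf x p ≠ 0) :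
    br b (tf (br x a) p • br b c + tf (br x b) p • br c a + tf (br x c) p • br a b) = 0 := by
  have h := S.rot.Na p hp.rot (by rw [tf_smul_left]; exact mul_ne_zero S.ω_ne hs)
  simp only [br_smul_left, tf_smul_left, mul_smul] at h
  rw [← smul_add, ← smul_add, br_smul_right] at h
  have := (smul_eq_zero.mp h).resolve_left S.ω_ne
  rw [← this]
  congr 1
  abel

/-- `[x, a]` is orthogonal to `p`. -/
theorem n_zero (S : Sys ω γ x a b c) (p : Matrix (Fin 3) (Fin 3) K) (hp : Perp a b c p) (hs : tf x p ≠ 0) :
    tf (br x a) p = 0 := by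
  set N := tf (br x a) p • br b c + tf (br x b) p • br c a + tf (br x c) p • br a b with hN
  have h1 : br N a = 0 := by rw [br_comm]; exact S.Na p hp hs
  have h2 : br N b = 0 := by rw [br_comm]; exact S.Nb p hp hs
  have h3 : br N c = 0 := by rw [br_comm]; exact S.Nc p hp hs
  have h4 : br N (br b c) = 0 := by rw [jacobi, h2, h3, br_zero_right, br_zero_right, add_zero]
  have h5 : br x N = 0 := by
    rw [← S.h0, br_comm, jacobi, h1, h4, br_zero_right, br_zero_right, add_zero]
  obtain ⟨κ, hκ⟩ := S.cx1 N h5 (by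
      rw [hN, trace_add, trace_add, trace_smul, trace_smul, trace_smul, trace_br, trace_br, trace_br]; simp)
    (by rw [hN, tf_add_right, tf_add_right, tf_smul_right, tf_smul_right, tf_smul_right, S.xD, S.xE, S.xF]; ring)
  have hκ0 : κ = 0 := by
    rw [hκ, br_smul_left] at h1
    exact (smul_eq_zero.mp h1).resolve_right S.a_comm
  have hN0 : N = 0 := by rw [hκ, hκ0, zero_smul]
  have := congrArg (fun m => tf a m) hN0
  simp only [hN, tf_add_right, tf_smul_right, tf_zero_right, tf_br_self, tf_br_self', mul_zero, add_zero] at this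
  exact (mul_eq_zero.mp this).resolve_right S.t_ne

/-- there is a `p`. -/
theorem exists_p (S : Sys ω γ x a b c) : ∃ p, Perp a b c p ∧ tf x p ≠ 0 := by
  by_cases h1 : tf x (br a (br c a)) = 0
  · by_cases h2 : tf x (br a (br a b)) = 0
    · exfalso
      obtain ⟨n, hn⟩ := S.Q1
      rw [h1, h2] at hn
      simp only [mul_zero, zero_mul, zero_smul, add_zero] at hn
      have h3 := congrArg (fun m => tf (x * x) m) hn
      simp only [tf_smul_right] at h3
      have k : tf (x * x) (br x a) = 0 := by rw [← tf_inv, br_sq_self, tf_zero_left]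
      rw [k, mul_zero, tf_comm, S.tf_x_xx] at h3
      have hn0 : n = 0 := (mul_eq_zero.mp h3.symm).resolve_right S.hγ
      rw [hn0, zero_smul] at hn
      exact S.a_comm ((smul_eq_zero.mp hn).resolve_left (mul_ne_zero S.t_ne S.t_ne))
    · exact ⟨_, S.P02, h2⟩
  · exact ⟨_, S.P01, h1⟩

/-- `[x, a]` is orthogonal to everything in the complement. -/
theorem xaT (S : Sys ω γ x a b c) (T : Matrix (Fin 3) (Fin 3) K) (hT : Perp a b c T) : tf (br x a) T = 0 := by
  obtain ⟨p, hp, hs⟩ := S.exists_p
  have h := S.L1a T p hT hp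
  rw [S.n_zero p hp hs, mul_zero] at h
  exact (mul_eq_zero.mp h).resolve_left hs

/-- the exact shape of `[x, a]` -/
theorem Q (S : Sys ω γ x a b c) :
    (tf a (br b c) * tf a (br b c)) • br x a
      + (tf a (br b c) * tf x (br a (br c a))) • b + (tf a (br b c) * tf x (br a (br a b))) • c
      + (tf x (br a (br c a)) * tf a b + tf x (br a (br a b)) * tf c a) • br b c
      + (tf x (br a (br a b)) * tf b c) • br c a
      + (tf x (br a (br c a)) * tf b c) • br a b = 0 := by
  obtain ⟨n, hn⟩ := S.Q1
  obtain ⟨p, hp, hs⟩ := S.exists_p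
  have h2 := congrArg (fun m => tf m p) hn
  simp only [tf_add_left, tf_smul_left, hp.pb, hp.pc, hp.pD, hp.pE, hp.pF, S.xaT p hp] at h2
  have : n * tf x p = 0 := by linear_combination -h2
  rw [hn, (mul_eq_zero.mp this).resolve_right hs, zero_smul]

/-- `tr (x [D, E]) = 0` -/
theorem xDE (S : Sys ω γ x a b c) : tf x (br (br b c) (br c a)) = 0 := by
  have k1 : tf (br x a) (br c (br b c)) = tf x (br (br b c) (br c a)) := by
    rw [tf_inv, jacobi, S.h0, tf_add_right, tf_br_self', zero_add, br_comm a c]
  rw [← k1]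
  exact S.xaT _ S.P20

theorem xEF (S : Sys ω γ x a b c) : tf x (br (br c a) (br a b)) = 0 := by
  have := S.rot.xDE
  rw [tf_smul_left] at this
  exact (mul_eq_zero.mp this).resolve_left S.ω_ne

theorem xFD (S : Sys ω γ x a b c) : tf x (br (br a b) (br b c)) = 0 := by
  have := S.rot.xEF
  rw [tf_smul_left] at this
  exact (mul_eq_zero.mp this).resolve_left S.ω_ne

end Sys

end Pool.Agent.H837dc
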