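import Pool.Agent.H837dc.Basic

/-!
Helper file for `MP_525382_al`: the system `[a,[b,c]] = x`, `[b,[c,a]] = ω x`, `[c,[a,b]] = ω² x` in characteristic two.
-/

set_option autoImplicit false
set_option linter.unusedSectionVars false
set_option linter.unusedVariables false

namespace Pool.Agent.H837dc

open Matrix Module

variable {K : Type*} [Field K] [CharP K 2]

/-- The system, with the properties of `x` which are used. -/
structure Sys (ω γ : K) (x a b c : Matrix (Fin 3) (Fin 3) K) : Prop where
  hω : ω * ω + ω + 1 = 0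
  hγ : γ ≠ 0
  x3 : x * x * x = γ • (1 : Matrix (Fin 3) (Fin 3) K)
  tx : trace x = 0
  txx : tf x x = 0
  cx : ∀ y, br x y = 0 → ∃ p q r : K, y = p • (1 : Matrix (Fin 3) (Fin 3) K) + q • x + r • (x * x)
  ta : trace a = 0
  tb : trace b = 0
  tc : trace c = 0
  h0 : br a (br b c) = x
  h1 : br b (br c a) = ω • x
  h2 : br c (br a b) = (ω * ω) • x

namespace Sys

variable {ω γ : K} {x a b c : Matrix (Fin 3) (Fin 3) K}

theorem ω_ne (S : Sys ω γ x a b c) : ω ≠ 0 := by
  intro h
  have := S.hω
  rw [h] at this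
  simp at this

theorem ω3 (S : Sys ω γ x a b c) : ω * ω * ω = 1 := by
  have h := S.hω
  have : ω * ω * ω = (ω - 1) * (ω * ω + ω + 1) + 1 := by ring
  rw [this, h, mul_zero, zero_add]

theorem rot (S : Sys ω γ x a b c) : Sys ω γ (ω • x) b c a := by
  have h3 := S.ω3
  refine ⟨S.hω, S.hγ, ?_, ?_, ?_, ?_, S.tb, S.tc, S.ta, S.h1, ?_, ?_⟩
  · have : ω • x * ω • x * ω • x = (ω * ω * ω) • (x * x * x) := by
      simp only [smul_mul_assoc, mul_smul_comm, smul_smul]
      rw [mul_assoc ω ω ω]
    rw [this, h3, one_smul, S.x3]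
  · rw [trace_smul, S.tx, smul_zero]
  · rw [tf_smul_left, tf_smul_right, S.txx]; ring
  · intro y hy
    rw [br_smul_left] at hy
    have : br x y = 0 := by
      rcases smul_eq_zero.mp hy with h | h
      · exact absurd h S.ω_ne
      · exact h
    obtain ⟨p, q, r, e⟩ := S.cx y this
    refine ⟨p, q * (ω * ω), r * ω, ?_⟩
    rw [e]
    simp only [smul_mul_assoc, mul_smul_comm, smul_smul]
    rw [show q * (ω * ω) * ω = q * (ω * ω * ω) by ring, show r * ω * (ω * ω) = r * (ω * ω * ω) by ring, h3,
      mul_one, mul_one]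
  · rw [S.h2, smul_smul]
  · rw [S.h0, smul_smul, h3, one_smul]

/-- commuting with `x`, trace zero and orthogonal to `x`: a multiple of `x`. -/
theorem cx1 (S : Sys ω γ x a b c) (y : Matrix (Fin 3) (Fin 3) K) (h : br x y = 0) (h1 : trace y = 0)
    (h2 : tf x y = 0) : ∃ q : K, y = q • x := by
  obtain ⟨p, q, r, e⟩ := S.cx y h
  have t1 : trace (1 : Matrix (Fin 3) (Fin 3) K) = 1 := by
    rw [trace_one, Fintype.card_fin]
    have := two_zero (K := K)
    push_cast
    linear_combination this
  have t3 : tf x (x * x) = γ := by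
    unfold tf
    rw [← mul_assoc, S.x3, trace_smul, t1, smul_eq_mul, mul_one]
  have hp : p = 0 := by
    have := h1
    rw [e, trace_add, trace_add, trace_smul, trace_smul, trace_smul, t1, S.tx, show trace (x * x) = tf x x from rfl,
      S.txx] at this
    simpa using this
  have hr : r = 0 := by
    have := h2
    rw [e, tf_add_right, tf_add_right, tf_smul_right, tf_smul_right, tf_smul_right, tf_one_right, S.tx, S.txx, t3] at this
    have h' : r * γ = 0 := by linear_combination this
    rcases mul_eq_zero.mp h' with h | h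
    · exact h
    · exact absurd h S.hγ
  exact ⟨q, by rw [e, hp, hr]; simp⟩

theorem tf_x_xx (S : Sys ω γ x a b c) : tf x (x * x) = γ := by
  have t1 : trace (1 : Matrix (Fin 3) (Fin 3) K) = 1 := by
    rw [trace_one, Fintype.card_fin]
    have := two_zero (K := K)
    push_cast
    linear_combination this
  unfold tf
  rw [← mul_assoc, S.x3, trace_smul, t1, smul_eq_mul, mul_one]

/-- in addition `tr (x y²) = 0`: then zero. -/
theorem cx0 (S : Sys ω γ x a b c) (y : Matrix (Fin 3) (Fin 3) K) (h : br x y = 0) (h1 : trace y = 0)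
    (h2 : tf x y = 0) (h3 : tf x (y * y) = 0) : y = 0 := by
  obtain ⟨q, e⟩ := S.cx1 y h h1 h2
  have : q * q * γ = 0 := by
    rw [e] at h3
    rw [smul_mul_assoc, mul_smul_comm, tf_smul_right, tf_smul_right, S.tf_x_xx] at h3
    linear_combination h3
  have hq : q = 0 := by
    rcases mul_eq_zero.mp this with h | h
    · exact mul_self_eq_zero.mp h
    · exact absurd h S.hγ
  rw [e, hq, zero_smul]

theorem x_ne (S : Sys ω γ x a b c) : x ≠ 0 := by
  intro h
  have := S.tf_x_xx
  rw [h, tf_zero_left] at this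
  exact S.hγ this.symm

/-! ### trace facts -/

theorem xa (S : Sys ω γ x a b c) : tf x a = 0 := by
  rw [← S.h0]; exact tf_br_self'' _ _

theorem xb (S : Sys ω γ x a b c) : tf x b = 0 := by
  have := S.rot.xa
  rw [tf_smul_left] at this
  exact (mul_eq_zero.mp this).resolve_left S.ω_ne

theorem xc (S : Sys ω γ x a b c) : tf x c = 0 := by
  have := S.rot.xb
  rw [tf_smul_left] at this
  exact (mul_eq_zero.mp this).resolve_left S.ω_ne

theorem xD (S : Sys ω γ x a b c) : tf x (br b c) = 0 := by
  rw [← S.h0]; exact tf_br_self''' _ _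

theorem xE (S : Sys ω γ x a b c) : tf x (br c a) = 0 := by
  have := S.rot.xD
  rw [tf_smul_left] at this
  exact (mul_eq_zero.mp this).resolve_left S.ω_ne

theorem xF (S : Sys ω γ x a b c) : tf x (br a b) = 0 := by
  have := S.rot.xE
  rw [tf_smul_left] at this
  exact (mul_eq_zero.mp this).resolve_left S.ω_ne

theorem xaa (S : Sys ω γ x a b c) : tf x (a * a) = 0 := by
  rw [← S.h0, tf_comm, ← tf_inv, br_sq_self, tf_zero_left]

theorem xbb (S : Sys ω γ x a b c) : tf x (b * b) = 0 := by
  have := S.rot.xaa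
  rw [tf_smul_left] at this
  exact (mul_eq_zero.mp this).resolve_left S.ω_ne

theorem xcc (S : Sys ω γ x a b c) : tf x (c * c) = 0 := by
  have := S.rot.xbb
  rw [tf_smul_left] at this
  exact (mul_eq_zero.mp this).resolve_left S.ω_ne

/-- `V` is totally singular -/
theorem xvv (S : Sys ω γ x a b c) (p q r : K) :
    tf x ((p • a + q • b + r • c) * (p • a + q • b + r • c)) = 0 := by
  have e : (p • a + q • b + r • c) * (p • a + q • b + r • c)
      = (p * p) • (a * a) + (q * q) • (b * b) + (r * r) • (c * c) + (p * q) • br a b + (q * r) • br b c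
        + (r * p) • br c a := by
    unfold br
    simp only [add_mul, mul_add, smul_mul_assoc, mul_smul_comm, smul_smul, smul_add]
    rw [mul_comm q p, mul_comm r p, mul_comm r q]
    abel
  rw [e]
  simp only [tf_add_right, tf_smul_right, S.xaa, S.xbb, S.xcc, S.xF, S.xD, S.xE]
  ring

theorem xv (S : Sys ω γ x a b c) (p q r : K) : tf x (p • a + q • b + r • c) = 0 := by
  simp only [tf_add_right, tf_smul_right, S.xa, S.xb, S.xc]; ring

theorem tv (S : Sys ω γ x a b c) (p q r : K) : trace (p • a + q • b + r • c) = 0 := by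
  simp only [trace_add, trace_smul, S.ta, S.tb, S.tc]; simp

/-- an element of `V` commuting with `x` is zero -/
theorem v_comm (S : Sys ω γ x a b c) (p q r : K) (h : br x (p • a + q • b + r • c) = 0) :
    p • a + q • b + r • c = 0 :=
  S.cx0 _ h (S.tv p q r) (S.xv p q r) (S.xvv p q r)

theorem a_comm (S : Sys ω γ x a b c) : br x a ≠ 0 := by
  intro h
  have : a = 0 := S.cx0 a h S.ta S.xa S.xaa
  apply S.x_ne
  rw [← S.h0, this, br_zero_left]

/-- `tr (E F) = 0` and so on -/
theorem EF (S : Sys ω γ x a b c) : tf (br c a) (br a b) = 0 := by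
  have h : tf a (br b (br c a)) = 0 := by
    rw [S.h1, tf_smul_right, tf_comm, S.xa, mul_zero]
  rw [tf_comm, tf_inv]
  exact h

theorem FD (S : Sys ω γ x a b c) : tf (br a b) (br b c) = 0 := S.rot.EF

theorem DE (S : Sys ω γ x a b c) : tf (br b c) (br c a) = 0 := S.rot.FD

theorem tE (S : Sys ω γ x a b c) : tf b (br c a) = tf a (br b c) := by
  rw [← tf_inv, tf_comm]

theorem tF (S : Sys ω γ x a b c) : tf c (br a b) = tf a (br b c) := by
  rw [S.rot.tE, S.tE]

end Sys

end Pool.Agent.H837dc
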