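import Pool.Agent.H837dc.TZero

/-!
Helper file for `MP_525382_al`: `tr (a [b,c]) ≠ 0` for every solution.
-/

set_option autoImplicit false
set_option linter.unusedSectionVars false
set_option linter.unusedVariables false

namespace Pool.Agent.H837dc

open Matrix Module

variable {K : Type*} [Field K] [CharP K 2]

namespace Sys

variable {ω γ : K} {x a b c : Matrix (Fin 3) (Fin 3) K}

/-- `tr (a² [b,c]) = 0` -/
theorem aaD (S : Sys ω γ x a b c) : tf (a * a) (br b c) = 0 := by
  have h := S.EF
  rw [tf_inv, br_br_self, tf_comm, tf_inv] at h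
  exact h

theorem axa (S : Sys ω γ x a b c) :
    a * x * a = det a • br b c + tf a (br b c) • (a * a) := by
  have h := ch1 a (br b c) S.ta (trace_br _ _)
  rw [S.h0, S.aaD, zero_smul, add_zero] at h
  exact h

/-- if `t = 0` then `a² ∈ V` -/
theorem aaV (S : Sys ω γ x a b c) (ht : tf a (br b c) = 0) :
    ∃ p q r : K, a * a = p • a + q • b + r • c ∧ ¬ (q = 0 ∧ r = 0) := by
  obtain ⟨p, q, r, s, hD⟩ := S.D_form ht
  set θ := p • a + q • b + r • c with hθ
  have haxa : a * x * a = det a • br b c := by
    have := S.axa
    rw [ht, zero_smul, add_zero] at this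
    exact this
  obtain ⟨e, he⟩ := ch2 a x S.ta S.tx S.xa S.xaa
  rw [haxa] at he
  -- `y = a² + Δ θ`
  have h1 : br x (a * a + det a • θ) = (e + det a * s) • x := by
    rw [br_add_right, br_smul_right, he]
    have : br x θ = br b c + s • x := by
      rw [hD, add_assoc, add_self, add_zero]
    rw [this, smul_add, smul_smul]
    have e2 : det a • br b c + e • x + (det a • br b c + (det a * s) • x)
        = (det a • br b c + det a • br b c) + (e • x + (det a * s) • x) := by abel
    rw [e2, add_self, zero_add, ← add_smul]
  have h2 : (e + det a * s) = 0 := by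
    have := congrArg (fun m => tf (x * x) m) h1
    simp only [tf_smul_right] at this
    rw [← tf_inv, br_sq_self, tf_zero_left, tf_comm, S.tf_x_xx] at this
    exact (mul_eq_zero.mp this.symm).resolve_right S.hγ
  rw [h2, zero_smul] at h1
  have ta4 : tf x (a * a * (a * a)) = 0 := by
    rw [← S.h0, tf_comm, ← tf_inv]
    have : br (a * a * (a * a)) a = 0 := by
      unfold br
      have : a * a * (a * a) * a = a * (a * a * (a * a)) := by noncomm_ring
      rw [this, add_self]
    rw [this, tf_zero_left]
  have tθ : tf (br b c) θ = 0 := by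
    rw [hθ, tf_add_right, tf_add_right, tf_smul_right, tf_smul_right, tf_smul_right]
    rw [tf_comm _ a, ht, tf_br_self'', tf_br_self''']
    ring
  have ty : trace (a * a + det a • θ) = 0 := by
    rw [trace_add, trace_smul, S.tv, smul_zero, add_zero]
    have := tf_sq a
    rw [S.ta, mul_zero] at this
    exact this
  have xy : tf x (a * a + det a • θ) = 0 := by
    rw [tf_add_right, tf_smul_right, S.xaa, S.xv]; ring
  have xyy : tf x ((a * a + det a • θ) * (a * a + det a • θ)) = 0 := by
    have e1 : (a * a + det a • θ) * (a * a + det a • θ)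
        = a * a * (a * a) + det a • br (a * a) θ + (det a * det a) • (θ * θ) := by
      unfold br
      simp only [add_mul, mul_add, smul_mul_assoc, mul_smul_comm, smul_smul, smul_add]
      abel
    rw [e1, tf_add_right, tf_add_right, tf_smul_right, tf_smul_right, ta4, S.xvv, ← tf_inv, he, tf_add_left,
      tf_smul_left, tf_smul_left, tθ, S.xv]
    ring
  have y0 := S.cx0 _ h1 ty xy xyy
  have haa : a * a = det a • θ := eq_of_add y0
  -- the determinant is nonzero
  have hdet : det a ≠ 0 := by
    intro h0
    rw [h0, zero_smul] at haa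
    apply S.a_comm
    have hx : a * br b c + br b c * a = x := S.h0
    have e1 : a * x = a * br b c * a := by
      rw [← hx, mul_add, ← mul_assoc, haa, zero_mul, zero_add, mul_assoc]
    have e2 : x * a = a * br b c * a := by
      rw [← hx, add_mul, mul_assoc (br b c) a a, haa, mul_zero, add_zero]
    unfold br at e1 e2 ⊢
    rw [e1, e2, add_self]
  refine ⟨det a * p, det a * q, det a * r, ?_, ?_⟩
  · rw [haa, hθ]
    simp only [smul_add, smul_smul]
  · rintro ⟨hq, hr⟩
    have hq' : q = 0 := (mul_eq_zero.mp hq).resolve_left hdet
    have hr' : r = 0 := (mul_eq_zero.mp hr).resolve_left hdet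
    rw [hθ, hq', hr', zero_smul, zero_smul, add_zero, add_zero, smul_smul] at haa
    -- now `a² = κ a`
    have k1 : a * br b c = (det a * p) • br b c := by
      have h3 : a * (a * x * a) = (det a * p) • (a * x * a) := by
        rw [← mul_assoc, ← mul_assoc, haa, smul_mul_assoc, smul_mul_assoc]
      rw [haxa, mul_smul_comm, smul_smul, mul_comm (det a * p) (det a), ← smul_smul] at h3
      exact smul_right_injective _ hdet h3
    have k2 : br b c * a = (det a * p) • br b c := by
      have h3 : (a * x * a) * a = (det a * p) • (a * x * a) := by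
        rw [mul_assoc (a * x) a a, haa, mul_smul_comm]
      rw [haxa, smul_mul_assoc, smul_smul, mul_comm (det a * p) (det a), ← smul_smul] at h3
      exact smul_right_injective _ hdet h3
    apply S.x_ne
    rw [← S.h0]
    show a * br b c + br b c * a = 0
    rw [k1, k2, add_self]

/-- the trace `t = tr (a [b,c])` is nonzero. -/
theorem t_ne (S : Sys ω γ x a b c) : tf a (br b c) ≠ 0 := by
  intro ht
  obtain ⟨p, q, r, h, hqr⟩ := S.aaV ht
  have ht' : tf b (br c a) = 0 := by rw [S.tE]; exact ht
  obtain ⟨p', q', r', h', hqr'⟩ := S.rot.aaV ht'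
  have e1 : q • br a b + r • br c a = 0 := by
    have h1 : br a (a * a) = 0 := by rw [br_comm]; exact br_sq_self a
    rw [h, br_add_right, br_add_right, br_smul_right, br_smul_right, br_smul_right, br_self, smul_zero,
      zero_add, br_comm a c] at h1
    exact h1
  have e2 : q' • br b c + r' • br a b = 0 := by
    have h1 : br b (b * b) = 0 := by rw [br_comm]; exact br_sq_self b
    rw [h', br_add_right, br_add_right, br_smul_right, br_smul_right, br_smul_right, br_self, smul_zero,
      zero_add, br_comm b a] at h1
    exact h1
  have hr : r ≠ 0 := by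
    intro hr
    rw [hr, zero_smul, add_zero] at e1
    exact hqr ⟨(smul_eq_zero.mp e1).resolve_right S.F_ne, hr⟩
  have hq' : q' ≠ 0 := by
    intro hq
    rw [hq, zero_smul, zero_add] at e2
    exact hqr' ⟨hq, (smul_eq_zero.mp e2).resolve_right S.F_ne⟩
  have hE : br c a = (r⁻¹ * q) • br a b := by
    have := eq_of_add e1
    rw [mul_smul, this, smul_smul, inv_mul_cancel₀ hr, one_smul]
  have hD : br b c = (q'⁻¹ * r') • br a b := by
    have := (eq_of_add e2).symm
    rw [mul_smul, this, smul_smul, inv_mul_cancel₀ hq', one_smul]
  set e := r⁻¹ * q with he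
  set d := q'⁻¹ * r' with hd
  set w := d • a + e • b + (1 : K) • c with hw
  have wa : br w a = 0 := by
    rw [hw, br_add_left, br_add_left, br_smul_left, br_smul_left, br_smul_left, br_self, smul_zero, zero_add,
      one_smul, br_comm b a, hE, add_self]
  have wb : br w b = 0 := by
    rw [hw, br_add_left, br_add_left, br_smul_left, br_smul_left, br_smul_left, br_self, smul_zero, add_zero,
      one_smul, br_comm c b, hD, add_self]
  have wF : br w (br a b) = 0 := by
    rw [jacobi, wa, wb, br_zero_right, br_zero_right, add_zero]
  have wD : br w (br b c) = 0 := by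
    rw [hD, br_smul_right, wF, smul_zero]
  have wx : br x w = 0 := by
    rw [br_comm, ← S.h0, jacobi, wD, wa, br_zero_right, br_zero_right, add_zero]
  have w0 := S.v_comm _ _ _ wx
  exact one_ne_zero (S.indep _ _ _ w0).2.2

end Sys

end Pool.Agent.H837dc
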