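import Pool.Agent.H837dc.Zero

/-!
Helper file for `MP_525382_al`: `a, b, c` are independent and `tr (a [b,c]) ≠ 0` for every solution.
-/

set_option autoImplicit false
set_option linter.unusedSectionVars false
set_option linter.unusedVariables false

namespace Pool.Agent.H837dc

open Matrix Module

variable {K : Type*} [Field K] [CharP K 2]

/-- in characteristic two, `u + v = 0` means `u = v`. -/
theorem eq_of_add {u v : Matrix (Fin 3) (Fin 3) K} (h : u + v = 0) : u = v := by
  have : u = (u + v) + v := by rw [add_assoc, add_self, add_zero]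
  rw [this, h, zero_add]

theorem keq_of_add {u v : K} (h : u + v = 0) : u = v := by
  have : u = (u + v) + v := by rw [add_assoc, kadd_self, add_zero]
  rw [this, h, zero_add]

theorem add_eq_of_eq {u v : Matrix (Fin 3) (Fin 3) K} (h : u = v) : u + v = 0 := by
  rw [h, add_self]

namespace Sys

variable {ω γ : K} {x a b c : Matrix (Fin 3) (Fin 3) K}

theorem F_ne (S : Sys ω γ x a b c) : br a b ≠ 0 := by
  intro h
  have := S.h2
  rw [h, br_zero_right] at this
  rcases smul_eq_zero.mp this.symm with h | h
  · exact S.ω_ne (mul_self_eq_zero.mp h)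
  · exact S.x_ne h

theorem D_ne (S : Sys ω γ x a b c) : br b c ≠ 0 := S.rot.F_ne

theorem E_ne (S : Sys ω γ x a b c) : br c a ≠ 0 := S.rot.D_ne

/-- `c` is not a combination of `a` and `b`. -/
theorem c_dep (S : Sys ω γ x a b c) (p q : K) (h : c = p • a + q • b) : False := by
  have hD : br b c = p • br a b := by
    rw [h, br_add_right, br_smul_right, br_smul_right, br_self, smul_zero, add_zero, br_comm b a]
  have hE : br c a = q • br a b := by
    rw [h, br_add_left, br_smul_left, br_smul_left, br_self, smul_zero, zero_add, br_comm b a]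
  have hq : q ≠ 0 := by
    intro hq; apply S.E_ne; rw [hE, hq, zero_smul]
  have hp : p ≠ 0 := by
    intro hp; apply S.D_ne; rw [hD, hp, zero_smul]
  have x0 : x = p • br a (br a b) := by
    have := S.h0; rw [hD, br_smul_right] at this; exact this.symm
  have x1 : ω • x = q • br b (br a b) := by
    have := S.h1; rw [hE, br_smul_right] at this; exact this.symm
  set w := (ω * p) • a + q • b with hw
  have wF : br w (br a b) = 0 := by
    rw [hw, br_add_left, br_smul_left, br_smul_left, ← x1, mul_smul, ← x0]
    exact add_self _
  have aw : br a w = q • br a b := by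
    rw [hw, br_add_right, br_smul_right, br_smul_right, br_self, smul_zero, zero_add]
  have wwa : br (w * w) a = 0 := by
    rw [← br_br_self, br_comm w a, aw, br_smul_right, wF, smul_zero]
  have wwb : br (w * w) b = 0 := by
    have h1 : br (w * w) w = 0 := br_sq_self w
    rw [hw, br_add_right, br_smul_right, br_smul_right, ← hw, wwa, smul_zero, zero_add] at h1
    exact (smul_eq_zero.mp h1).resolve_left hq
  have wwF : br (w * w) (br a b) = 0 := by
    rw [jacobi, wwa, wwb, br_zero_right, br_zero_right, add_zero]
  have wwx : br x (w * w) = 0 := by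
    rw [br_comm, x0, br_smul_right, jacobi, wwa, wwF, br_zero_right, br_zero_right, add_zero, smul_zero]
  have e0 : (ω * p) • a + q • b + (0 : K) • c = w := by rw [zero_smul, add_zero]
  have tw : trace w = 0 := by rw [← e0]; exact S.tv _ _ _
  have tww : trace (w * w) = 0 := by
    have := tf_sq w
    rw [tw, mul_zero] at this
    exact this
  have xww : tf x (w * w) = 0 := by rw [← e0]; exact S.xvv _ _ _
  obtain ⟨κ, hκ⟩ := S.cx1 (w * w) wwx tww xww
  have hκ0 : κ = 0 := by
    have := wwa
    rw [hκ, br_smul_left] at this
    exact (smul_eq_zero.mp this).resolve_right S.a_comm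
  have ww0 : w * w = 0 := by rw [hκ, hκ0, zero_smul]
  have hF : br a b = q⁻¹ • br a w := by rw [aw, smul_smul, inv_mul_cancel₀ hq, one_smul]
  have xw : br x w = 0 := by
    rw [x0, hF, br_smul_right, br_br_self, br_smul_left, br_smul_left, br_comm _ w, br_comm (a * a) w,
      br_br_self, ww0, br_zero_left, smul_zero, smul_zero]
  have w0 : w = 0 := by
    rw [← e0]
    apply S.v_comm
    rw [e0]; exact xw
  apply S.F_ne
  rw [hF, w0, br_zero_right, smul_zero]

/-- `a`, `b`, `c` are linearly independent. -/
theorem indep (S : Sys ω γ x a b c) (p q r : K) (h : p • a + q • b + r • c = 0) : p = 0 ∧ q = 0 ∧ r = 0 := by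
  have key : ∀ {x a b c : Matrix (Fin 3) (Fin 3) K} (S : Sys ω γ x a b c) (p q r : K)
      (h : p • a + q • b + r • c = 0), r = 0 := by
    intro x a b c S p q r h
    by_contra hr
    apply S.c_dep (r⁻¹ * p) (r⁻¹ * q)
    have h1 := eq_of_add h
    rw [mul_smul, mul_smul, ← smul_add, h1, smul_smul, inv_mul_cancel₀ hr, one_smul]
  refine ⟨?_, ?_, key S p q r h⟩
  · apply key S.rot q r p
    rw [← h]; abel
  · apply key S.rot.rot r p q
    rw [← h]; abel

theorem tD (S : Sys ω γ x a b c) : trace (br b c) = 0 := trace_br _ _

/-- if `tr (a [b,c]) = 0` then `[b,c] ∈ [x,V] + Kx`. -/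
theorem D_form (S : Sys ω γ x a b c) (ht : tf a (br b c) = 0) :
    ∃ p q r s : K, br b c = br x (p • a + q • b + r • c) + s • x := by
  have hg : LinearIndependent K ![(1 : Matrix (Fin 3) (Fin 3) K), x, a, b, c] := by
    rw [Fintype.linearIndependent_iff]
    intro g hg
    simp only [Fin.sum_univ_five, Matrix.cons_val_zero, Matrix.cons_val_one, Matrix.cons_val_two,
      Matrix.cons_val, Matrix.head_cons, Matrix.tail_cons] at hg
    have t1 : trace (1 : Matrix (Fin 3) (Fin 3) K) = 1 := by
      rw [trace_one, Fintype.card_fin]
      have := two_zero (K := K)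
      push_cast
      linear_combination this
    have g0 : g 0 = 0 := by
      have := congrArg trace hg
      simp only [trace_add, trace_smul, t1, S.tx, S.ta, S.tb, S.tc, trace_zero, smul_eq_mul] at this
      linear_combination this
    have e1 : g 2 • a + g 3 • b + g 4 • c = g 1 • x := by
      apply eq_of_add
      rw [g0, zero_smul, zero_add] at hg
      rw [← hg]; abel
    have g1 : g 1 = 0 := by
      have h1 := S.xvv (g 2) (g 3) (g 4)
      rw [e1, smul_mul_assoc, mul_smul_comm, tf_smul_right, tf_smul_right, S.tf_x_xx] at h1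
      rcases mul_eq_zero.mp h1 with h | h
      · exact h
      · exact (mul_eq_zero.mp h).resolve_right S.hγ
    rw [g1, zero_smul] at e1
    obtain ⟨h2, h3, h4⟩ := S.indep _ _ _ e1
    intro i
    fin_cases i
    · exact g0
    · exact g1
    · exact h2
    · exact h3
    · exact h4
  have hh : LinearIndependent K ![br x a, br x b, br x c, x] := by
    rw [Fintype.linearIndependent_iff]
    intro g hg
    simp only [Fin.sum_univ_four, Matrix.cons_val_zero, Matrix.cons_val_one, Matrix.cons_val_two,
      Matrix.cons_val, Matrix.head_cons, Matrix.tail_cons] at hg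
    rw [← br_smul_right, ← br_smul_right, ← br_smul_right, ← br_add_right, ← br_add_right] at hg
    have g3 : g 3 = 0 := by
      have := congrArg (fun m => tf (x * x) m) hg
      simp only [tf_add_right, tf_smul_right, tf_zero_right] at this
      rw [← tf_inv, br_sq_self, tf_zero_left, zero_add, tf_comm, S.tf_x_xx] at this
      exact (mul_eq_zero.mp this).resolve_right S.hγ
    rw [g3, zero_smul, add_zero] at hg
    have h0 := S.v_comm _ _ _ hg
    obtain ⟨h1, h2, h4⟩ := S.indep _ _ _ h0
    intro i
    fin_cases i
    · exact h1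
    · exact h2
    · exact h4
    · exact g3
  have ax : tf a x = 0 := by rw [tf_comm]; exact S.xa
  have bx : tf b x = 0 := by rw [tf_comm]; exact S.xb
  have cx : tf c x = 0 := by rw [tf_comm]; exact S.xc
  have Fx : tf (br a b) x = 0 := by rw [tf_comm]; exact S.xF
  have Dx : tf (br b c) x = 0 := by rw [tf_comm]; exact S.xD
  have Ex : tf (br c a) x = 0 := by rw [tf_comm]; exact S.xE
  have mem := orth_span ![(1 : Matrix (Fin 3) (Fin 3) K), x, a, b, c] ![br x a, br x b, br x c, x] hg hh (by norm_num)
    (by
      intro i j
      fin_cases i <;> fin_cases j <;> simp only [Fin.zero_eta, Fin.mk_one, Fin.reduceFinMk, Matrix.cons_val_zero,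
        Matrix.cons_val_one, Matrix.cons_val_two, Matrix.cons_val, Matrix.head_cons, Matrix.tail_cons, Fin.isValue]
      · rw [tf_one_left]; exact trace_br _ _
      · rw [tf_one_left]; exact trace_br _ _
      · rw [tf_one_left]; exact trace_br _ _
      · rw [tf_one_left]; exact S.tx
      · exact tf_br_self _ _
      · exact tf_br_self _ _
      · exact tf_br_self _ _
      · exact S.txx
      · exact tf_br_self' _ _
      · rw [br_comm, ← tf_inv]; exact Fx
      · rw [br_comm, ← tf_inv, br_comm]; exact Ex
      · exact ax
      · rw [br_comm, ← tf_inv, br_comm]; exact Fx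
      · exact tf_br_self' _ _
      · rw [br_comm, ← tf_inv]; exact Dx
      · exact bx
      · rw [br_comm, ← tf_inv]; exact Ex
      · rw [br_comm, ← tf_inv, br_comm]; exact Dx
      · exact tf_br_self' _ _
      · exact cx)
    (br b c)
    (by
      intro i
      fin_cases i <;> simp only [Fin.zero_eta, Fin.mk_one, Fin.reduceFinMk, Matrix.cons_val_zero,
        Matrix.cons_val_one, Matrix.cons_val_two, Matrix.cons_val, Matrix.head_cons, Matrix.tail_cons, Fin.isValue]
      · rw [tf_one_left]; exact trace_br _ _
      · exact S.xD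
      · exact ht
      · exact tf_br_self _ _
      · exact tf_br_self' _ _)
  rw [Submodule.mem_span_range_iff_exists_fun] at mem
  obtain ⟨g, hg⟩ := mem
  simp only [Fin.sum_univ_four, Matrix.cons_val_zero, Matrix.cons_val_one, Matrix.cons_val_two,
      Matrix.cons_val, Matrix.head_cons, Matrix.tail_cons] at hg
  refine ⟨g 0, g 1, g 2, g 3, ?_⟩
  rw [← hg, br_add_right, br_add_right, br_smul_right, br_smul_right, br_smul_right]

end Sys

end Pool.Agent.H837dc
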