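import Pool.Agent.H837dc.Sys

/-!
Helper file for `MP_525382_al`: `tr (a [b,c]) ≠ 0` for every solution.
-/

set_option autoImplicit false
set_option linter.unusedSectionVars false
set_option linter.unusedVariables false

namespace Pool.Agent.H837dc

open Matrix Module

variable {K : Type*} [Field K] [CharP K 2]

/-- in characteristic two the trace of a square is the square of the trace -/
theorem tf_sq (u : Matrix (Fin 3) (Fin 3) K) : tf u u = trace u * trace u := by
  have h := two_zero (K := K)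
  unfold tf
  rw [trace_fin_three, trace_fin_three]
  simp only [Matrix.mul_apply, Fin.sum_univ_three]
  linear_combination (u 0 1 * u 1 0 + u 0 2 * u 2 0 + u 1 2 * u 2 1 - u 0 0 * u 1 1 - u 0 0 * u 2 2 - u 1 1 * u 2 2) * h

/-- a consequence of the Cayley-Hamilton theorem -/
theorem ch1 (a D : Matrix (Fin 3) (Fin 3) K) (ha : trace a = 0) (hD : trace D = 0) :
    a * (br a D) * a = det a • D + tf a D • (a * a) + tf (a * a) D • a := by
  have h := two_zero (K := K)
  rw [trace_fin_three] at ha hD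
  have e1 : a 2 2 = - a 0 0 - a 1 1 := by linear_combination ha
  have e2 : D 2 2 = - D 0 0 - D 1 1 := by linear_combination hD
  -- the identity over the integers has a sign
  have key : a * (a * D + D * a) * a + det a • D = tf a D • (a * a) + tf (a * a) D • a := by
    unfold tf
    rw [trace_fin_three, trace_fin_three, det_fin_three]
    ext i j
    fin_cases i <;> fin_cases j <;>
      simp only [Matrix.add_apply, Matrix.smul_apply, smul_eq_mul, Matrix.mul_apply, Fin.sum_univ_three, Fin.mk_zero, Fin.mk_one,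
        Fin.reduceFinMk, Fin.isValue, Fin.zero_eta] <;>
      rw [e1, e2] <;> ring
  unfold br
  have h2 : a * (a * D + D * a) * a = (a * (a * D + D * a) * a + det a • D) + det a • D := by
    rw [add_assoc, add_self, add_zero]
  rw [h2, key]
  abel

/-- another consequence of the Cayley-Hamilton theorem -/
theorem ch2 (a x : Matrix (Fin 3) (Fin 3) K) (ha : trace a = 0) (hx : trace x = 0) (h1 : tf x a = 0)
    (h2 : tf x (a * a) = 0) : ∃ e : K, br x (a * a) = a * x * a + e • x := by
  have h := two_zero (K := K)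
  refine ⟨a 0 0 * a 1 1 + a 0 0 * a 2 2 + a 1 1 * a 2 2 - a 0 1 * a 1 0 - a 0 2 * a 2 0 - a 1 2 * a 2 1, ?_⟩
  rw [trace_fin_three] at ha hx
  have e1 : a 2 2 = - a 0 0 - a 1 1 := by linear_combination ha
  have e2 : x 2 2 = - x 0 0 - x 1 1 := by linear_combination hx
  have key : a * a * x + a * x * a + x * (a * a)
      + (a 0 0 * a 1 1 + a 0 0 * a 2 2 + a 1 1 * a 2 2 - a 0 1 * a 1 0 - a 0 2 * a 2 0 - a 1 2 * a 2 1) • x
      = tf x a • a + tf x (a * a) • (1 : Matrix (Fin 3) (Fin 3) K) := by
    unfold tf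
    rw [trace_fin_three, trace_fin_three]
    ext i j
    fin_cases i <;> fin_cases j <;>
      simp [Matrix.add_apply, Matrix.smul_apply, smul_eq_mul, Matrix.mul_apply, Fin.sum_univ_three, Matrix.one_apply] <;>
      rw [e1, e2] <;> ring
  rw [h1, h2, zero_smul, zero_smul, add_zero] at key
  unfold br
  have : x * (a * a) + a * a * x = (a * a * x + a * x * a + x * (a * a)
      + (a 0 0 * a 1 1 + a 0 0 * a 2 2 + a 1 1 * a 2 2 - a 0 1 * a 1 0 - a 0 2 * a 2 0 - a 1 2 * a 2 1) • x)
      + (a * x * a + (a 0 0 * a 1 1 + a 0 0 * a 2 2 + a 1 1 * a 2 2 - a 0 1 * a 1 0 - a 0 2 * a 2 0 - a 1 2 * a 2 1) • x)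
      - ((a * x * a + a * x * a)
      + ((a 0 0 * a 1 1 + a 0 0 * a 2 2 + a 1 1 * a 2 2 - a 0 1 * a 1 0 - a 0 2 * a 2 0 - a 1 2 * a 2 1) • x
        + (a 0 0 * a 1 1 + a 0 0 * a 2 2 + a 1 1 * a 2 2 - a 0 1 * a 1 0 - a 0 2 * a 2 0 - a 1 2 * a 2 1) • x)) := by
    abel
  rw [this, key, add_self, add_self]
  simp

end Pool.Agent.H837dc
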